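import Pool.Agent.CH74.PolyDefs

/-!
# CH74/Defs: definitions for the circuit Hirsch conjecture (MP_c5fcd0_co)

`Violates`: the negated form of Q1 (the definitions it uses are in `CH74/PolyDefs`).
Row form: `RPoly r c = {z | r i z ≤ c i}`, `RCirc`, `RWalk`.
Base spindle: `Reach` (states reachable by weak circuit steps which keep all walls hit before), `Base`.
-/

namespace Pool.Agent.CH74

open Matrix

/-- The negated form of Q1 for the matrix `A` with `m` rows (full row rank), the right hand side `b`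
and the vertices `x`, `y`: the polyhedron is bounded (so it has finitely many facets) and every circuit walk
from `x` to `y` has more than `f - d` steps. -/
def Violates {m n : ℕ} (A : Matrix (Fin m) (Fin n) ℝ) (b : Fin m → ℝ) (x y : Fin n → ℝ) : Prop :=
  A.rank = m ∧ Bornology.IsBounded (Poly A b) ∧ {F | IsFacet (Poly A b) F}.Finite ∧
    x ∈ (Poly A b).extremePoints ℝ ∧ y ∈ (Poly A b).extremePoints ℝ ∧
      ∀ (k : ℕ) (p : ℕ → Fin n → ℝ), IsCircuitWalk A b k p → p 0 = x → p k = y →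
        (numFacets (Poly A b) : ℤ) - dim (Poly A b) < k

/-! ## Row form -/

section Row

variable {V : Type*} [AddCommGroup V] [Module ℝ V] {κ : Type*}

/-- polyhedra given by inequalities -/
def RPoly (r : κ → V →ₗ[ℝ] ℝ) (c : κ → ℝ) : Set V := {z | ∀ i, r i z ≤ c i}

/-- circuits: the rows which vanish at `g` determine `g` up to a factor -/
def RCirc (r : κ → V →ₗ[ℝ] ℝ) (g : V) : Prop :=
  g ≠ 0 ∧ ∀ h : V, (∀ i, r i g = 0 → r i h = 0) → ∃ t : ℝ, h = t • g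

/-- circuit walks in row form -/
def RWalk (r : κ → V →ₗ[ℝ] ℝ) (c : κ → ℝ) (k : ℕ) (z : ℕ → V) : Prop :=
  (∀ i ≤ k, z i ∈ RPoly r c) ∧
    ∀ i < k, RCirc r (z (i + 1) - z i) ∧
      ∀ ε : ℝ, 0 < ε → z i + (1 + ε) • (z (i + 1) - z i) ∉ RPoly r c

end Row

/-! ## The base spindle -/

section Base

variable {D : ℕ} {α β : Type*}

/-- the base polytope `{x | RA i · x ≥ 0, RB j · x ≤ 1}` -/
def BPoly (RA : α → Fin D → ℝ) (RB : β → Fin D → ℝ) : Set (Fin D → ℝ) :=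
  {x | (∀ i, 0 ≤ RA i ⬝ᵥ x) ∧ ∀ j, RB j ⬝ᵥ x ≤ 1}

/-- circuits of the base polytope -/
def BCirc (RA : α → Fin D → ℝ) (RB : β → Fin D → ℝ) (g : Fin D → ℝ) : Prop :=
  g ≠ 0 ∧ ∀ h : Fin D → ℝ, (∀ i, RA i ⬝ᵥ g = 0 → RA i ⬝ᵥ h = 0) →
    (∀ j, RB j ⬝ᵥ g = 0 → RB j ⬝ᵥ h = 0) → ∃ t : ℝ, h = t • g

/-- `Reach S x`: the point `x` of the base polytope can be reached from `0` by weak circuit steps, each of
which ends on a new wall `RB j · x = 1`, all these walls (the set `S`) staying tight. -/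
inductive Reach [DecidableEq β] (RA : α → Fin D → ℝ) (RB : β → Fin D → ℝ) :
    Finset β → (Fin D → ℝ) → Prop
  | zero : Reach RA RB ∅ 0
  | step {S : Finset β} {x : Fin D → ℝ} (j : β) (x' : Fin D → ℝ) : Reach RA RB S x → j ∉ S →
      (x' = x ∨ ∃ g, BCirc RA RB g ∧ ∃ t : ℝ, x' - x = t • g) → x' ∈ BPoly RA RB →
      (∀ i ∈ insert j S, RB i ⬝ᵥ x' = 1) → Reach RA RB (insert j S) x'

end Base

/-- The hypotheses on the base spindle (the rows need not be in general position; the first `D` rows of each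
kind form a basis): `Y` is not reachable. -/
structure Base {D a b : ℕ} (RA : Fin D ⊕ Fin a → Fin D → ℝ) (RB : Fin D ⊕ Fin b → Fin D → ℝ)
    (Y : Fin D → ℝ) : Prop where
  bY : ∀ j, RB j ⬝ᵥ Y = 1
  aY : ∀ i, 0 < RA i ⬝ᵥ Y
  rec0 : ∀ x : Fin D → ℝ, (∀ i, 0 ≤ RA i ⬝ᵥ x) → (∀ j, RB j ⬝ᵥ x ≤ 0) → x = 0
  basA : ∀ g : Fin D → ℝ, (∀ i, RA (Sum.inl i) ⬝ᵥ g = 0) → g = 0
  basB : ∀ g : Fin D → ℝ, (∀ j, RB (Sum.inl j) ⬝ᵥ g = 0) → g = 0
  nw : ∀ S, ¬ Reach RA RB S Y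



end Pool.Agent.CH74
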