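import Pool.Agent.CH74.Defs

/-!
# CH74/Gen: structure of short circuit walks to a generic target

`κA`-rows are tight at the start `X`, `κB`-rows are tight at the target `y`. If `y - X` avoids finitely many
proper subspaces, then a circuit walk from `X` to `y` with `k ≤ dim V` steps has `k = dim V`, step `i` hits
a new wall `h i ∈ κB`, the walls `h i` are distinct and stay tight.
-/

namespace Pool.Agent.CH74

open Module Submodule

section Gen

variable {V : Type*} [AddCommGroup V] [Module ℝ V] [FiniteDimensional ℝ V]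
variable {κA κB : Type*} [Finite κA] [Finite κB]

open Classical in
/-- a representative of the circuits with zero set `Z` -/
noncomputable def rep {κ : Type*} (r : κ → V →ₗ[ℝ] ℝ) (Z : Set κ) : V :=
  if h : ∃ g, RCirc r g ∧ {i | r i g = 0} = Z then h.choose else 0

theorem rep_mem {κ : Type*} (r : κ → V →ₗ[ℝ] ℝ) {g : V} (hg : RCirc r g) :
    rep r {i | r i g = 0} ∈ span ℝ {g} ∧ g ∈ span ℝ {rep r {i | r i g = 0}} := by
  have h : ∃ g', RCirc r g' ∧ {i | r i g' = 0} = {i | r i g = 0} := ⟨g, hg, rfl⟩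
  have hr : rep r {i | r i g = 0} = h.choose := by
    unfold rep
    rw [dif_pos h]
  rw [hr]
  obtain ⟨h1, h2⟩ := h.choose_spec
  constructor
  · rw [mem_span_singleton]
    obtain ⟨t, ht⟩ := hg.2 h.choose (fun i hi => by
      have : i ∈ {i | r i g = 0} := hi
      rw [← h2] at this
      exact this)
    exact ⟨t, ht.symm⟩
  · rw [mem_span_singleton]
    obtain ⟨t, ht⟩ := h1.2 g (fun i hi => by
      have : i ∈ {i | r i h.choose = 0} := hi
      rw [h2] at this
      exact this)
    exact ⟨t, ht.symm⟩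

theorem span_rep {κ ι : Type*} (r : κ → V →ₗ[ℝ] ℝ) (d : ι → V) (hd : ∀ i, RCirc r (d i)) (I : Set ι) :
    span ℝ (rep r '' ((fun i => {j | r j (d i) = 0}) '' I)) = span ℝ (d '' I) := by
  apply le_antisymm
  · rw [span_le]
    rintro _ ⟨_, ⟨i, hi, rfl⟩, rfl⟩
    have h1 := (rep_mem r (hd i)).1
    have h2 : span ℝ {d i} ≤ span ℝ (d '' I) := span_mono (by
      rw [Set.singleton_subset_iff]; exact ⟨i, hi, rfl⟩)
    exact h2 h1
  · rw [span_le]
    rintro _ ⟨i, hi, rfl⟩
    have h1 := (rep_mem r (hd i)).2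
    have h2 : span ℝ {rep r {j | r j (d i) = 0}} ≤
        span ℝ (rep r '' ((fun i => {j | r j (d i) = 0}) '' I)) := span_mono (by
      rw [Set.singleton_subset_iff]; exact ⟨_, ⟨i, hi, rfl⟩, rfl⟩)
    exact h2 h1

/-- the kernels used in the bad subspaces -/
noncomputable def kk {κ : Type*} (r : κ → V →ₗ[ℝ] ℝ) : Option κ → Submodule ℝ V
  | none => ⊤
  | some i => LinearMap.ker (r i)

/-- the bad subspaces -/
noncomputable def bs {κ : Type*} (r : κ → V →ₗ[ℝ] ℝ)
    (p : (Set (Set κ) × Option κ) × (Set (Set κ) × Option κ)) : Submodule ℝ V :=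
  (span ℝ (rep r '' p.1.1) ⊓ kk r p.1.2) ⊔ (span ℝ (rep r '' p.2.1) ⊓ kk r p.2.2)

theorem gen (r : κA ⊕ κB → V →ₗ[ℝ] ℝ) (X : V) :
    ∃ Bad : Set (Submodule ℝ V), Bad.Finite ∧ (∀ U ∈ Bad, U ≠ ⊤) ∧
      ∀ y : V, (∀ U ∈ Bad, y - X ∉ U) → ∀ k ≤ finrank ℝ V, ∀ z : ℕ → V,
        RWalk r (Sum.elim (fun i => r (Sum.inl i) X) (fun j => r (Sum.inr j) y)) k z →
        z 0 = X → z k = y → k = finrank ℝ V ∧ ∃ h : Fin k → κB,
          (∀ i : Fin k, 0 < r (Sum.inr (h i)) (z (i + 1) - z i)) ∧
          (∀ i : Fin k, ∀ l, (i : ℕ) < l → l ≤ k → r (Sum.inr (h i)) (z l) = r (Sum.inr (h i)) y) ∧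
          Function.Injective h := by
  classical
  refine ⟨{U | U ∈ Set.range (bs r) ∧ U ≠ ⊤}, ?_, fun U hU => hU.2, ?_⟩
  · exact (Set.finite_range (bs r)).subset fun U hU => hU.1
  intro y hy k hk z hw hz0 hzk
  have hgen : ∀ p, y - X ∈ bs r p → bs r p = ⊤ := by
    intro p hp
    by_contra h
    exact hy _ ⟨⟨p, rfl⟩, h⟩ hp
  set d : Fin k → V := fun i => z (i + 1) - z i with hd
  have hcirc : ∀ i, RCirc r (d i) := fun i => (hw.2 i i.2).1
  -- partial sums
  have hlow : ∀ l ≤ k, z l - X ∈ span ℝ (d '' {i | (i : ℕ) < l}) := by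
    intro l
    induction l with
    | zero => intro _; rw [hz0, sub_self]; exact zero_mem _
    | succ l ih =>
      intro hl
      have h1 := ih (by omega)
      have h2 : z l - X ∈ span ℝ (d '' {i | (i : ℕ) < l + 1}) :=
        span_mono (Set.image_mono fun i hi => Nat.lt_succ_of_lt hi) h1
      have h3 : d ⟨l, by omega⟩ ∈ span ℝ (d '' {i | (i : ℕ) < l + 1}) :=
        subset_span ⟨_, Nat.lt_succ_self l, rfl⟩
      have h4 := add_mem h2 h3
      have h5 : z l - X + d ⟨l, by omega⟩ = z (l + 1) - X := by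
        rw [hd]; simp only; abel
      rwa [h5] at h4
  have hup : ∀ l m, l ≤ m → m ≤ k → z m - z l ∈ span ℝ (d '' {i | l ≤ (i : ℕ)}) := by
    intro l m hlm
    induction m, hlm using Nat.le_induction with
    | base => intro _; rw [sub_self]; exact zero_mem _
    | succ m hm ih =>
      intro hl
      have h1 := ih (by omega)
      have h3 : d ⟨m, by omega⟩ ∈ span ℝ (d '' {i | l ≤ (i : ℕ)}) :=
        subset_span ⟨_, hm, rfl⟩
      have h4 := add_mem h1 h3
      have h5 : z m - z l + d ⟨m, by omega⟩ = z (m + 1) - z l := by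
        rw [hd]; simp only; abel
      rwa [h5] at h4
  -- the directions form a basis
  have hspan : span ℝ (Set.range d) = ⊤ := by
    have h1 : y - X ∈ bs r ((((fun i => {j | r j (d i) = 0}) '' Set.univ), none), (∅, none)) := by
      unfold bs
      apply mem_sup_left
      refine ⟨?_, mem_top⟩
      simp only
      rw [span_rep r d hcirc]
      have := hlow k le_rfl
      rw [hzk] at this
      exact span_mono (Set.image_mono fun i _ => Set.mem_univ i) this
    have h2 := hgen _ h1
    unfold bs at h2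
    simp only [kk, inf_top_eq, Set.image_empty, span_empty, sup_bot_eq] at h2
    rw [span_rep r d hcirc, Set.image_univ] at h2
    exact h2
  have hkN : k = finrank ℝ V := by
    have h1 := finrank_range_le_card (R := ℝ) d
    rw [Set.finrank, hspan, finrank_top, Fintype.card_fin] at h1
    omega
  have hli : LinearIndependent ℝ d :=
    linearIndependent_of_top_le_span_of_card_eq_finrank hspan.ge (by rw [Fintype.card_fin, hkN])
  have hdisj : ∀ l, Disjoint (span ℝ (d '' {i | (i : ℕ) < l})) (span ℝ (d '' {i | l ≤ (i : ℕ)})) := by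
    intro l
    apply hli.disjoint_span_image
    rw [Set.disjoint_left]
    intro i hi hi'
    have h1 : (i : ℕ) < l := hi
    have h2 : l ≤ (i : ℕ) := hi'
    omega
  refine ⟨hkN, ?_⟩
  -- claim B
  have claimB : ∀ l ≤ k, ∀ j : κB, r (Sum.inr j) (z l) = r (Sum.inr j) y →
      ∀ i : Fin k, l ≤ (i : ℕ) → r (Sum.inr j) (d i) = 0 := by
    intro l hl j hj i hi
    have h1 : y - X ∈ bs r ((((fun i => {j | r j (d i) = 0}) '' {i | (i : ℕ) < l}), none),
        (((fun i => {j | r j (d i) = 0}) '' {i | l ≤ (i : ℕ)}), some (Sum.inr j))) := by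
      unfold bs
      rw [show y - X = (z l - X) + (y - z l) by abel]
      refine Submodule.add_mem_sup ⟨?_, mem_top⟩ ⟨?_, ?_⟩
      · simp only
        rw [span_rep r d hcirc]
        exact hlow l hl
      · simp only
        rw [span_rep r d hcirc]
        have := hup l k hl le_rfl
        rwa [hzk] at this
      · simp only [kk]
        change y - z l ∈ LinearMap.ker _
        rw [LinearMap.mem_ker, map_sub, hj, sub_self]
    have h2 := hgen _ h1
    have h3 : d i ∈ bs r ((((fun i => {j | r j (d i) = 0}) '' {i | (i : ℕ) < l}), none),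
        (((fun i => {j | r j (d i) = 0}) '' {i | l ≤ (i : ℕ)}), some (Sum.inr j))) := by
      rw [h2]; exact mem_top
    unfold bs at h3
    simp only [kk] at h3
    rw [span_rep r d hcirc, span_rep r d hcirc] at h3
    obtain ⟨u, hu, v, hv, huv⟩ := mem_sup.1 h3
    have hu1 : u ∈ span ℝ (d '' {i | (i : ℕ) < l}) := hu.1
    have hv1 : v ∈ span ℝ (d '' {i | l ≤ (i : ℕ)}) := hv.1
    have hv2 : r (Sum.inr j) v = 0 := hv.2
    have h4 : u ∈ span ℝ (d '' {i | l ≤ (i : ℕ)}) := by
      rw [show u = d i - v by rw [← huv]; abel]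
      exact sub_mem (subset_span ⟨i, hi, rfl⟩) hv1
    have h5 : u = 0 := (Submodule.disjoint_def.1 (hdisj l)) u hu1 h4
    rw [← huv, h5, zero_add, hv2]
  -- claim A
  have claimA : ∀ l ≤ k, ∀ j : κA, r (Sum.inl j) (z l) = r (Sum.inl j) X →
      ∀ i : Fin k, (i : ℕ) < l → r (Sum.inl j) (d i) = 0 := by
    intro l hl j hj i hi
    have h1 : y - X ∈ bs r ((((fun i => {j | r j (d i) = 0}) '' {i | (i : ℕ) < l}), some (Sum.inl j)),
        (((fun i => {j | r j (d i) = 0}) '' {i | l ≤ (i : ℕ)}), none)) := by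
      unfold bs
      rw [show y - X = (z l - X) + (y - z l) by abel]
      refine Submodule.add_mem_sup ⟨?_, ?_⟩ ⟨?_, mem_top⟩
      · simp only
        rw [span_rep r d hcirc]
        exact hlow l hl
      · simp only [kk]
        change z l - X ∈ LinearMap.ker _
        rw [LinearMap.mem_ker, map_sub, hj, sub_self]
      · simp only
        rw [span_rep r d hcirc]
        have := hup l k hl le_rfl
        rwa [hzk] at this
    have h2 := hgen _ h1
    have h3 : d i ∈ bs r ((((fun i => {j | r j (d i) = 0}) '' {i | (i : ℕ) < l}), some (Sum.inl j)),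
        (((fun i => {j | r j (d i) = 0}) '' {i | l ≤ (i : ℕ)}), none)) := by
      rw [h2]; exact mem_top
    unfold bs at h3
    simp only [kk] at h3
    rw [span_rep r d hcirc, span_rep r d hcirc] at h3
    obtain ⟨u, hu, v, hv, huv⟩ := mem_sup.1 h3
    have hu1 : u ∈ span ℝ (d '' {i | (i : ℕ) < l}) := hu.1
    have hu2 : r (Sum.inl j) u = 0 := hu.2
    have hv1 : v ∈ span ℝ (d '' {i | l ≤ (i : ℕ)}) := hv.1
    have h4 : v ∈ span ℝ (d '' {i | (i : ℕ) < l}) := by
      rw [show v = d i - u by rw [← huv]; abel]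
      exact sub_mem (subset_span ⟨i, hi, rfl⟩) hu1
    have h5 : v = 0 := (Submodule.disjoint_def.1 (hdisj l)) v h4 hv1
    rw [← huv, h5, add_zero, hu2]
  -- the blocking walls
  have hblock : ∀ i : Fin k, ∃ j : κB, 0 < r (Sum.inr j) (d i) ∧
      r (Sum.inr j) (z (i + 1)) = r (Sum.inr j) y := by
    intro i
    set c : κA ⊕ κB → ℝ := Sum.elim (fun i => r (Sum.inl i) X) (fun j => r (Sum.inr j) y) with hc
    have h1 : ∃ q, 0 < r q (d i) ∧ r q (z (i + 1)) = c q := by
      by_contra hcon
      push Not at hcon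
      have hle : ∀ q, r q (z (i + 1)) ≤ c q := hw.1 (i + 1) (by have := i.2; omega)
      have hev : ∀ᶠ ε in nhdsWithin (0 : ℝ) (Set.Ioi 0), ∀ q, r q (z (i + 1)) + ε * r q (d i) ≤ c q := by
        rw [Filter.eventually_all]
        intro q
        by_cases hq : 0 < r q (d i)
        · have h2 : r q (z (i + 1)) < c q := lt_of_le_of_ne (hle q) (hcon q hq)
          have ht : Filter.Tendsto (fun ε : ℝ => r q (z (i + 1)) + ε * r q (d i))
              (nhdsWithin (0 : ℝ) (Set.Ioi 0)) (nhds (r q (z (i + 1)) + 0 * r q (d i))) := by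
            apply Filter.Tendsto.mono_left _ nhdsWithin_le_nhds
            have : Continuous (fun ε : ℝ => r q (z (i + 1)) + ε * r q (d i)) := by fun_prop
            exact this.tendsto 0
          have h3 : r q (z (i + 1)) + 0 * r q (d i) < c q := by simpa using h2
          exact (ht.eventually (gt_mem_nhds h3)).mono fun ε h => h.le
        · filter_upwards [self_mem_nhdsWithin] with ε hε
          have hε' : (0 : ℝ) < ε := hε
          push Not at hq
          have := hle q
          nlinarith
      obtain ⟨ε, hε, hε0⟩ := (hev.and self_mem_nhdsWithin).exists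
      apply (hw.2 i i.2).2 ε hε0
      intro q
      have h4 : z i + (1 + ε) • (z (i + 1) - z i) = z (i + 1) + ε • d i := by
        rw [hd]
        simp only
        rw [add_smul, one_smul]
        abel
      rw [h4, map_add, map_smul, smul_eq_mul]
      exact hε q
    obtain ⟨q, hq1, hq2⟩ := h1
    rcases q with q | q
    · exfalso
      have h2 : r (Sum.inl q) (z (i + 1)) = r (Sum.inl q) X := hq2
      have := claimA (i + 1) (by have := i.2; omega) q h2 i (Nat.lt_succ_self _)
      rw [this] at hq1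
      exact lt_irrefl _ hq1
    · exact ⟨q, hq1, hq2⟩
  choose h hh1 hh2 using hblock
  -- walls stay tight
  have hstay : ∀ i : Fin k, ∀ l, (i : ℕ) < l → l ≤ k →
      r (Sum.inr (h i)) (z l) = r (Sum.inr (h i)) y := by
    intro i l hil
    induction l, hil using Nat.le_induction with
    | base => intro _; exact hh2 i
    | succ l hl ih =>
      intro hlk
      have h1 := ih (by omega)
      have h2 := claimB l (by omega) (h i) h1 ⟨l, by omega⟩ le_rfl
      rw [hd] at h2
      simp only [map_sub] at h2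
      linarith
  refine ⟨h, hh1, hstay, ?_⟩
  intro i i' hii
  by_contra hne
  rcases lt_or_gt_of_ne (fun h => hne (Fin.ext h) : (i : ℕ) ≠ i') with hlt | hlt
  · have h1 := hstay i i' hlt i'.2.le
    have h2 := claimB i' i'.2.le (h i) h1 i' le_rfl
    rw [hii] at h2
    exact (hh1 i').ne' h2
  · have h1 := hstay i' i hlt i.2.le
    have h2 := claimB i i.2.le (h i') h1 i le_rfl
    rw [← hii] at h2
    exact (hh1 i).ne' h2

end Gen

end Pool.Agent.CH74
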