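import Pool.Agent.CH74.Std
import Pool.Agent.CH74.Gen

/-!
# CH74/Lift: from the base spindle to a counterexample

Product of the base polytope with two simplices, tilted (note 1686).
-/

namespace Pool.Agent.CH74

open Matrix Module Filter Topology

/-! ## Auxiliary facts -/

theorem ultra_const {F : Type*} [Finite F] (U : Ultrafilter ℕ) (f : ℕ → F) :
    ∃ v, ∀ᶠ n in (U : Filter ℕ), f n = v := by
  obtain ⟨v, hv⟩ := Ultrafilter.eq_pure_of_finite (U.map f)
  refine ⟨v, ?_⟩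
  have h1 : {v} ∈ U.map f := by
    rw [hv]
    exact Ultrafilter.mem_pure.2 rfl
  rw [Ultrafilter.mem_map] at h1
  exact h1

theorem ultra_lim {V : Type*} [NormedAddCommGroup V] [ProperSpace V] (U : Ultrafilter ℕ) (f : ℕ → V)
    (R : ℝ) (hf : ∀ᶠ n in (U : Filter ℕ), ‖f n‖ ≤ R) : ∃ p, Tendsto f U (𝓝 p) := by
  have h1 : Metric.closedBall (0 : V) R ∈ U.map f := by
    rw [Ultrafilter.mem_map]
    filter_upwards [hf] with n hn
    simpa using hn
  obtain ⟨p, _, hp⟩ := (isCompact_closedBall (0 : V) R).ultrafilter_le_nhds' (U.map f) h1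
  exact ⟨p, hp⟩

theorem avoid {V : Type*} [NormedAddCommGroup V] [NormedSpace ℝ V] [FiniteDimensional ℝ V]
    (Bad : Set (Submodule ℝ V)) (hfin : Bad.Finite) (hne : ∀ U ∈ Bad, U ≠ ⊤) (p : V) (δ : ℝ)
    (hδ : 0 < δ) : ∃ w, ‖w - p‖ < δ ∧ ∀ U ∈ Bad, w ∉ U := by
  have : CompleteSpace V := FiniteDimensional.complete ℝ V
  have hd : Dense (⋂ U ∈ Bad, ((U : Set V))ᶜ) := by
    apply dense_biInter_of_isOpen
    · intro U _
      have : IsClosed (U : Set V) := Submodule.closed_of_finiteDimensional U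
      exact this.isOpen_compl
    · exact hfin.countable
    · intro U hU
      rw [← interior_eq_empty_iff_dense_compl]
      by_contra h
      exact hne U hU (Submodule.eq_top_of_nonempty_interior' U (Set.nonempty_iff_ne_empty.2 h))
  obtain ⟨w, hw, hw2⟩ := hd.exists_dist_lt p hδ
  refine ⟨w, ?_, fun U hU => ?_⟩
  · rw [← dist_eq_norm, dist_comm]
    exact hw2
  · have := Set.mem_iInter₂.1 hw U hU
    exact this

theorem std' {V : Type*} [NormedAddCommGroup V] [NormedSpace ℝ V] [FiniteDimensional ℝ V]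
    {κ : Type*} [Fintype κ] {N : ℕ} (hN : finrank ℝ V = N) (hn : Fintype.card κ = N + N)
    (r : κ → V →ₗ[ℝ] ℝ) (c : κ → ℝ)
    (X y z0 : V) (hbd : Bornology.IsBounded (RPoly r c)) (hX : X ∈ RPoly r c) (hy : y ∈ RPoly r c)
    (hz0 : ∀ i, r i z0 < c i)
    (hXv : ∀ v : V, (∀ i, r i X = c i → r i v = 0) → v = 0)
    (hyv : ∀ v : V, (∀ i, r i y = c i → r i v = 0) → v = 0)
    (hw : ∀ (k : ℕ) (z : ℕ → V), RWalk r c k z → z 0 = X → z k = y → N < k) :
    ∃ (A : Matrix (Fin N) (Fin (N + N)) ℝ) (b : Fin N → ℝ) (x' y' : Fin (N + N) → ℝ),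
      Violates A b x' y' := by
  set e : Fin (N + N) ≃ κ := (Fintype.equivFinOfCardEq hn).symm with he
  have hP : RPoly (fun i => r (e i)) (fun i => c (e i)) = RPoly r c := by
    ext z
    constructor
    · intro h q
      have := h (e.symm q)
      simpa using this
    · intro h i
      exact h (e i)
  have hC : ∀ g, RCirc (fun i => r (e i)) g ↔ RCirc r g := by
    intro g
    unfold RCirc
    have h1 : ∀ h : V, (∀ i, r (e i) g = 0 → r (e i) h = 0) ↔ (∀ q, r q g = 0 → r q h = 0) := by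
      intro h
      constructor
      · intro h' q
        have := h' (e.symm q)
        simpa using this
      · intro h' i
        exact h' (e i)
    constructor
    · rintro ⟨h2, h3⟩
      exact ⟨h2, fun h hh => h3 h ((h1 h).2 hh)⟩
    · rintro ⟨h2, h3⟩
      exact ⟨h2, fun h hh => h3 h ((h1 h).1 hh)⟩
  refine std (m := N) (n := N + N) hN rfl le_rfl (fun i => r (e i)) (fun i => c (e i)) X y z0
    (by rw [hP]; exact hbd) (by rw [hP]; exact hX) (by rw [hP]; exact hy) (fun i => hz0 (e i)) ?_ ?_ ?_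
  · intro v hv
    apply hXv v
    intro q hq
    have := hv (e.symm q)
    simp only [Equiv.apply_symm_apply] at this
    exact this hq
  · intro v hv
    apply hyv v
    intro q hq
    have := hv (e.symm q)
    simp only [Equiv.apply_symm_apply] at this
    exact this hq
  · intro k z hz h0 hk
    refine hw k z ⟨fun i hi => ?_, fun i hi => ?_⟩ h0 hk
    · rw [← hP]
      exact hz.1 i hi
    · obtain ⟨h1, h2⟩ := hz.2 i hi
      refine ⟨(hC _).1 h1, fun ε hε => ?_⟩
      rw [← hP]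
      exact h2 ε hε

/-! ## The rows -/

/-- the ambient space -/
abbrev VS (D a b : ℕ) := (Fin D → ℝ) × (Fin (a + 1) → ℝ) × (Fin (b + 1) → ℝ)

/-- walls at the start -/
abbrev KA (D a b : ℕ) := (Fin D ⊕ Fin a) ⊕ Unit ⊕ Fin (b + 1)

/-- walls at the target -/
abbrev KB (D a b : ℕ) := (Fin D ⊕ Fin b) ⊕ Fin (a + 1) ⊕ Unit

/-- dot product with a fixed vector -/
noncomputable def dl {D : ℕ} (R : Fin D → ℝ) : (Fin D → ℝ) →ₗ[ℝ] ℝ where
  toFun x := R ⬝ᵥ x
  map_add' x y := dotProduct_add R x y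
  map_smul' t x := by simp

@[simp] theorem dl_apply {D : ℕ} (R x : Fin D → ℝ) : dl R x = R ⬝ᵥ x := rfl

/-- the tilts -/
noncomputable def tl {D a : ℕ} : Fin D ⊕ Fin a → (Fin (a + 1) → ℝ) →ₗ[ℝ] ℝ
  | Sum.inl _ => 0
  | Sum.inr l => LinearMap.proj l.castSucc

/-- sum of the coordinates -/
noncomputable def sm {a : ℕ} : (Fin a → ℝ) →ₗ[ℝ] ℝ := ∑ l, LinearMap.proj l

theorem sm_apply {a : ℕ} (t : Fin a → ℝ) : sm t = ∑ l, t l := by
  unfold sm
  simp [LinearMap.sum_apply]

variable {D a b : ℕ}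

/-- the rows of the tilted product -/
noncomputable def row (RA : Fin D ⊕ Fin a → Fin D → ℝ) (RB : Fin D ⊕ Fin b → Fin D → ℝ) (ε : ℝ) :
    KA D a b ⊕ KB D a b → VS D a b →ₗ[ℝ] ℝ
  | Sum.inl (Sum.inl i) => -((dl (RA i)) ∘ₗ LinearMap.fst ℝ _ _) -
      ε • ((tl i) ∘ₗ (LinearMap.fst ℝ _ _) ∘ₗ (LinearMap.snd ℝ _ _))
  | Sum.inl (Sum.inr (Sum.inl _)) => sm ∘ₗ (LinearMap.fst ℝ _ _) ∘ₗ (LinearMap.snd ℝ _ _)
  | Sum.inl (Sum.inr (Sum.inr l)) =>
      -((LinearMap.proj l) ∘ₗ (LinearMap.snd ℝ _ _) ∘ₗ (LinearMap.snd ℝ _ _))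
  | Sum.inr (Sum.inl j) => ((dl (RB j)) ∘ₗ LinearMap.fst ℝ _ _) +
      ε • ((tl j) ∘ₗ (LinearMap.snd ℝ _ _) ∘ₗ (LinearMap.snd ℝ _ _))
  | Sum.inr (Sum.inr (Sum.inl l)) =>
      -((LinearMap.proj l) ∘ₗ (LinearMap.fst ℝ _ _) ∘ₗ (LinearMap.snd ℝ _ _))
  | Sum.inr (Sum.inr (Sum.inr _)) => sm ∘ₗ (LinearMap.snd ℝ _ _) ∘ₗ (LinearMap.snd ℝ _ _)

section Rows

variable (RA : Fin D ⊕ Fin a → Fin D → ℝ) (RB : Fin D ⊕ Fin b → Fin D → ℝ) (ε : ℝ) (z : VS D a b)

theorem row_xA (i : Fin D ⊕ Fin a) : row RA RB ε (Sum.inl (Sum.inl i)) z =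
    -(RA i ⬝ᵥ z.1) - ε * tl i z.2.1 := rfl

theorem row_tA (u : Unit) : row RA RB ε (Sum.inl (Sum.inr (Sum.inl u))) z = ∑ l, z.2.1 l := by
  change sm z.2.1 = _
  exact sm_apply _

theorem row_uA (l : Fin (b + 1)) : row RA RB ε (Sum.inl (Sum.inr (Sum.inr l))) z = -z.2.2 l := rfl

theorem row_xB (j : Fin D ⊕ Fin b) : row RA RB ε (Sum.inr (Sum.inl j)) z =
    RB j ⬝ᵥ z.1 + ε * tl j z.2.2 := rfl

theorem row_tB (l : Fin (a + 1)) : row RA RB ε (Sum.inr (Sum.inr (Sum.inl l))) z = -z.2.1 l := rfl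

theorem row_uB (u : Unit) : row RA RB ε (Sum.inr (Sum.inr (Sum.inr u))) z = ∑ l, z.2.2 l := by
  change sm z.2.2 = _
  exact sm_apply _

theorem tl_inl (i : Fin D) (t : Fin (a + 1) → ℝ) : tl (Sum.inl i : Fin D ⊕ Fin a) t = 0 := rfl

theorem tl_inr (l : Fin a) (t : Fin (a + 1) → ℝ) : tl (Sum.inr l : Fin D ⊕ Fin a) t = t l.castSucc := rfl

theorem row_cont (q : KA D a b ⊕ KB D a b) :
    Continuous (fun p : ℝ × VS D a b => row RA RB p.1 q p.2) := by
  have htl : ∀ {c : ℕ} (i : Fin D ⊕ Fin c), Continuous (tl i : (Fin (c + 1) → ℝ) →ₗ[ℝ] ℝ) :=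
    fun i => LinearMap.continuous_of_finiteDimensional _
  have hdl : ∀ R : Fin D → ℝ, Continuous (fun x : Fin D → ℝ => R ⬝ᵥ x) := by
    intro R
    exact (LinearMap.continuous_of_finiteDimensional (dl R) :)
  rcases q with (i | u | l) | (j | l | u)
  · simp only [row_xA]
    exact ((hdl _).comp (continuous_snd.fst)).neg.sub
      (continuous_fst.mul ((htl i).comp continuous_snd.snd.fst))
  · simp only [row_tA]
    fun_prop
  · simp only [row_uA]
    fun_prop
  · simp only [row_xB]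
    exact ((hdl _).comp (continuous_snd.fst)).add
      (continuous_fst.mul ((htl j).comp continuous_snd.snd.snd))
  · simp only [row_tB]
    fun_prop
  · simp only [row_uB]
    fun_prop

end Rows

/-- start vertex -/
noncomputable def X0 (D a b : ℕ) : VS D a b := (0, fun _ => 1 / ((a : ℝ) + 1), 0)

/-- target vertex -/
noncomputable def Y0 (a b : ℕ) (Y : Fin D → ℝ) : VS D a b := (Y, 0, fun _ => 1 / ((b : ℝ) + 1))

variable {RA : Fin D ⊕ Fin a → Fin D → ℝ} {RB : Fin D ⊕ Fin b → Fin D → ℝ} {Y : Fin D → ℝ}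

theorem injA (hB : Base RA RB Y) {ε : ℝ} (hε : ε ≠ 0) (v : VS D a b)
    (hv : ∀ q, row RA RB ε (Sum.inl q) v = 0) : v = 0 := by
  obtain ⟨g, t, u⟩ := v
  have hg : g = 0 := by
    apply hB.basA
    intro i'
    have := hv (Sum.inl (Sum.inl i'))
    rw [row_xA, tl_inl] at this
    simpa using this
  subst hg
  have hu : u = 0 := by
    ext l
    have := hv (Sum.inr (Sum.inr l))
    rw [row_uA] at this
    simpa using this
  have ht1 : ∀ l : Fin a, t l.castSucc = 0 := by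
    intro l
    have := hv (Sum.inl (Sum.inr l))
    rw [row_xA, tl_inr] at this
    simpa [hε] using this
  have ht : t = 0 := by
    have h1 := hv (Sum.inr (Sum.inl ()))
    rw [row_tA, Fin.sum_univ_castSucc] at h1
    simp only [ht1, Finset.sum_const_zero, zero_add] at h1
    ext l
    refine Fin.lastCases ?_ (fun l => ?_) l
    · exact h1
    · exact ht1 l
  rw [hu, ht]
  rfl

theorem injB (hB : Base RA RB Y) {ε : ℝ} (hε : ε ≠ 0) (v : VS D a b)
    (hv : ∀ q, row RA RB ε (Sum.inr q) v = 0) : v = 0 := by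
  obtain ⟨g, t, u⟩ := v
  have hg : g = 0 := by
    apply hB.basB
    intro i'
    have := hv (Sum.inl (Sum.inl i'))
    rw [row_xB, tl_inl] at this
    simpa using this
  subst hg
  have ht : t = 0 := by
    ext l
    have := hv (Sum.inr (Sum.inl l))
    rw [row_tB] at this
    simpa using this
  have hu1 : ∀ l : Fin b, u l.castSucc = 0 := by
    intro l
    have := hv (Sum.inl (Sum.inr l))
    rw [row_xB, tl_inr] at this
    simpa [hε] using this
  have hu : u = 0 := by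
    have h1 := hv (Sum.inr (Sum.inr ()))
    rw [row_uB, Fin.sum_univ_castSucc] at h1
    simp only [hu1, Finset.sum_const_zero, zero_add] at h1
    ext l
    refine Fin.lastCases ?_ (fun l => ?_) l
    · exact h1
    · exact hu1 l
  rw [hu, ht]
  rfl

/-- boundedness of the base cone section -/
theorem rec_bound (hB : Base RA RB Y) : ∃ m : ℝ, 0 < m ∧ ∀ x : Fin D → ℝ,
    m * ‖x‖ ≤ ∑ i, max 0 (-(RA i ⬝ᵥ x)) + ∑ j, max 0 (RB j ⬝ᵥ x) := by
  have hdl : ∀ R : Fin D → ℝ, Continuous (fun x : Fin D → ℝ => R ⬝ᵥ x) := by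
    intro R
    exact (LinearMap.continuous_of_finiteDimensional (dl R) :)
  set φ : (Fin D → ℝ) → ℝ := fun x => ∑ i, max 0 (-(RA i ⬝ᵥ x)) + ∑ j, max 0 (RB j ⬝ᵥ x) with hφ
  have hφc : Continuous φ := by
    apply Continuous.add
    · exact continuous_finsetSum _ fun i _ => continuous_const.max (hdl _).neg
    · exact continuous_finsetSum _ fun j _ => continuous_const.max (hdl _)
  have hφpos : ∀ x, x ≠ 0 → 0 < φ x := by
    intro x hx
    by_contra hcon
    apply hx
    have h1 : 0 ≤ ∑ i, max 0 (-(RA i ⬝ᵥ x)) := Finset.sum_nonneg fun i _ => le_max_left _ _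
    have h2 : 0 ≤ ∑ j, max 0 (RB j ⬝ᵥ x) := Finset.sum_nonneg fun j _ => le_max_left _ _
    rw [hφ] at hcon
    simp only [not_lt] at hcon
    have h3 : ∑ i, max 0 (-(RA i ⬝ᵥ x)) = 0 := by linarith
    have h4 : ∑ j, max 0 (RB j ⬝ᵥ x) = 0 := by linarith
    rw [Finset.sum_eq_zero_iff_of_nonneg fun i _ => le_max_left _ _] at h3 h4
    apply hB.rec0
    · intro i
      have := h3 i (Finset.mem_univ _)
      have h5 := le_max_right 0 (-(RA i ⬝ᵥ x))
      linarith
    · intro j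
      have := h4 j (Finset.mem_univ _)
      have h5 := le_max_right 0 (RB j ⬝ᵥ x)
      linarith
  rcases (Metric.sphere (0 : Fin D → ℝ) 1).eq_empty_or_nonempty with hemp | hne
  · refine ⟨1, one_pos, fun x => ?_⟩
    have hx : x = 0 := by
      by_contra hx
      have : ‖x‖⁻¹ • x ∈ Metric.sphere (0 : Fin D → ℝ) 1 := by
        rw [mem_sphere_zero_iff_norm, norm_smul, norm_inv, norm_norm,
          inv_mul_cancel₀ (norm_ne_zero_iff.2 hx)]
      rw [hemp] at this
      exact this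
    rw [hx, norm_zero, mul_zero]
    apply add_nonneg
    · exact Finset.sum_nonneg fun i _ => le_max_left _ _
    · exact Finset.sum_nonneg fun j _ => le_max_left _ _
  · obtain ⟨x0, hx0, hmin⟩ := (isCompact_sphere (0 : Fin D → ℝ) 1).exists_isMinOn hne hφc.continuousOn
    have hx0n : ‖x0‖ = 1 := by simpa using hx0
    have hx00 : x0 ≠ 0 := by
      intro h
      rw [h, norm_zero] at hx0n
      exact zero_ne_one hx0n
    refine ⟨φ x0, hφpos x0 hx00, fun x => ?_⟩
    by_cases hx : x = 0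
    · rw [hx, norm_zero, mul_zero]
      apply add_nonneg
      · exact Finset.sum_nonneg fun i _ => le_max_left _ _
      · exact Finset.sum_nonneg fun j _ => le_max_left _ _
    · have hxn : 0 < ‖x‖ := norm_pos_iff.2 hx
      have h1 : ‖x‖⁻¹ • x ∈ Metric.sphere (0 : Fin D → ℝ) 1 := by
        rw [mem_sphere_zero_iff_norm, norm_smul, norm_inv, norm_norm, inv_mul_cancel₀ hxn.ne']
      have h2 : φ x0 ≤ φ (‖x‖⁻¹ • x) := hmin h1
      have h3 : φ (‖x‖⁻¹ • x) = ‖x‖⁻¹ * φ x := by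
        rw [hφ]
        simp only [dotProduct_smul, smul_eq_mul]
        rw [mul_add, Finset.mul_sum, Finset.mul_sum]
        congr 1
        · refine Finset.sum_congr rfl fun i _ => ?_
          rw [mul_max_of_nonneg _ _ (inv_pos.2 hxn).le, mul_zero, mul_neg]
        · refine Finset.sum_congr rfl fun i _ => ?_
          rw [mul_max_of_nonneg _ _ (inv_pos.2 hxn).le, mul_zero]
      rw [h3] at h2
      have h4 : φ x0 * ‖x‖ ≤ (‖x‖⁻¹ * φ x) * ‖x‖ := mul_le_mul_of_nonneg_right h2 hxn.le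
      rw [mul_comm ‖x‖⁻¹, mul_assoc, inv_mul_cancel₀ hxn.ne', mul_one] at h4
      exact h4

/-- uniform boundedness -/
theorem unif_bound (hB : Base RA RB Y) : ∃ R : ℝ, ∀ ε : ℝ, 0 ≤ ε → ε ≤ 1 → ∀ z : VS D a b,
    (∀ q, row RA RB ε q z ≤ 2) → ‖z‖ ≤ R := by
  obtain ⟨m, hm, hmx⟩ := rec_bound hB
  set M : ℝ := 2 * ((a : ℝ) + b) + 4 with hM
  have hMpos : 0 < M := by positivity
  have hM4 : 4 ≤ M := by rw [hM]; have : (0:ℝ) ≤ 2 * ((a : ℝ) + b) := by positivity
                         linarith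
  set Kx : ℝ := (((D : ℝ) + a) * (2 + M) + ((D : ℝ) + b) * (2 + M)) / m with hKx
  have hKx0 : 0 ≤ Kx := by positivity
  refine ⟨M + Kx, fun ε hε0 hε1 z hz => ?_⟩
  obtain ⟨x, t, u⟩ := z
  have hcoord : ∀ {c : ℕ} (w : Fin (c + 1) → ℝ), (∀ l, -2 ≤ w l) → ∑ l, w l ≤ 2 →
      ∀ l, |w l| ≤ 2 * c + 4 := by
    intro c w h1 h2 l
    have h3 : w l + 2 ≤ ∑ l, (w l + 2) :=
      Finset.single_le_sum (f := fun l => w l + 2) (fun i _ => by have := h1 i; linarith)
        (Finset.mem_univ l)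
    rw [Finset.sum_add_distrib, Finset.sum_const, Finset.card_univ, Fintype.card_fin, nsmul_eq_mul] at h3
    push_cast at h3
    have hc0 : (0 : ℝ) ≤ c := Nat.cast_nonneg c
    rw [abs_le]
    constructor
    · have := h1 l
      linarith
    · linarith
  have ht : ∀ l, |t l| ≤ 2 * a + 4 := by
    apply hcoord
    · intro l
      have := hz (Sum.inr (Sum.inr (Sum.inl l)))
      rw [row_tB] at this
      simp only at this
      linarith
    · have := hz (Sum.inl (Sum.inr (Sum.inl ())))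
      rw [row_tA] at this
      exact this
  have hu : ∀ l, |u l| ≤ 2 * b + 4 := by
    apply hcoord
    · intro l
      have := hz (Sum.inl (Sum.inr (Sum.inr l)))
      rw [row_uA] at this
      simp only at this
      linarith
    · have := hz (Sum.inr (Sum.inr (Sum.inr ())))
      rw [row_uB] at this
      exact this
  have ha0 : (0 : ℝ) ≤ a := Nat.cast_nonneg a
  have hb0 : (0 : ℝ) ≤ b := Nat.cast_nonneg b
  have htM : ∀ l, |t l| ≤ M := fun l => (ht l).trans (by rw [hM]; linarith)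
  have huM : ∀ l, |u l| ≤ M := fun l => (hu l).trans (by rw [hM]; linarith)
  have htl : ∀ i : Fin D ⊕ Fin a, |tl i t| ≤ M := by
    rintro (i | l)
    · rw [tl_inl, abs_zero]; exact hMpos.le
    · rw [tl_inr]; exact htM _
  have hul : ∀ i : Fin D ⊕ Fin b, |tl i u| ≤ M := by
    rintro (i | l)
    · rw [tl_inl, abs_zero]; exact hMpos.le
    · rw [tl_inr]; exact huM _
  have hεM : ∀ s : ℝ, |s| ≤ M → |ε * s| ≤ M := by
    intro s hs
    rw [abs_mul, abs_of_nonneg hε0]
    calc ε * |s| ≤ 1 * M := mul_le_mul hε1 hs (abs_nonneg _) zero_le_one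
      _ = M := one_mul _
  have hxA : ∀ i, max 0 (-(RA i ⬝ᵥ x)) ≤ 2 + M := by
    intro i
    apply max_le (by linarith)
    have h1 := hz (Sum.inl (Sum.inl i))
    rw [row_xA] at h1
    simp only at h1
    have h2 := (abs_le.1 (hεM _ (htl i))).2
    linarith
  have hxB : ∀ j, max 0 (RB j ⬝ᵥ x) ≤ 2 + M := by
    intro j
    apply max_le (by linarith)
    have h1 := hz (Sum.inr (Sum.inl j))
    rw [row_xB] at h1
    simp only at h1
    have h2 := (abs_le.1 (hεM _ (hul j))).1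
    linarith
  have hxn : ‖x‖ ≤ Kx := by
    have h1 := hmx x
    have h2 : ∑ i, max 0 (-(RA i ⬝ᵥ x)) ≤ ((D : ℝ) + a) * (2 + M) := by
      calc ∑ i, max 0 (-(RA i ⬝ᵥ x)) ≤ ∑ _i : Fin D ⊕ Fin a, (2 + M) :=
            Finset.sum_le_sum fun i _ => hxA i
        _ = _ := by
          rw [Finset.sum_const, Finset.card_univ, Fintype.card_sum, Fintype.card_fin,
            Fintype.card_fin, nsmul_eq_mul]
          push_cast
          ring
    have h3 : ∑ j, max 0 (RB j ⬝ᵥ x) ≤ ((D : ℝ) + b) * (2 + M) := by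
      calc ∑ j, max 0 (RB j ⬝ᵥ x) ≤ ∑ _j : Fin D ⊕ Fin b, (2 + M) :=
            Finset.sum_le_sum fun i _ => hxB i
        _ = _ := by
          rw [Finset.sum_const, Finset.card_univ, Fintype.card_sum, Fintype.card_fin,
            Fintype.card_fin, nsmul_eq_mul]
          push_cast
          ring
    rw [hKx, le_div_iff₀ hm]
    linarith [mul_comm m ‖x‖]
  have htn : ‖t‖ ≤ M := (pi_norm_le_iff_of_nonneg hMpos.le).2 fun l => by
    rw [Real.norm_eq_abs]; exact htM l
  have hun : ‖u‖ ≤ M := (pi_norm_le_iff_of_nonneg hMpos.le).2 fun l => by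
    rw [Real.norm_eq_abs]; exact huM l
  rw [Prod.norm_def]
  apply max_le
  · simp only; linarith
  · rw [Prod.norm_def]
    apply max_le
    · simp only; linarith
    · simp only; linarith

end Pool.Agent.CH74
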