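import Pool.Agent.CH74.Lift

/-!
# CH74/LiftMain: the lifting theorem
-/

namespace Pool.Agent.CH74

open Matrix Module Filter Topology

variable {D a b : ℕ} {RA : Fin D ⊕ Fin a → Fin D → ℝ} {RB : Fin D ⊕ Fin b → Fin D → ℝ} {Y : Fin D → ℝ}

/-- right hand sides -/
noncomputable def rhs (RA : Fin D ⊕ Fin a → Fin D → ℝ) (RB : Fin D ⊕ Fin b → Fin D → ℝ) (ε : ℝ)
    (y : VS D a b) : KA D a b ⊕ KB D a b → ℝ :=
  Sum.elim (fun i => row RA RB ε (Sum.inl i) (X0 D a b)) (fun j => row RA RB ε (Sum.inr j) y)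

/-- what a short walk looks like -/
structure Good (RA : Fin D ⊕ Fin a → Fin D → ℝ) (RB : Fin D ⊕ Fin b → Fin D → ℝ) (ε : ℝ)
    (y : VS D a b) (N : ℕ) (z : ℕ → VS D a b) (h : Fin N → KB D a b) : Prop where
  mem : ∀ l ≤ N, ∀ q, row RA RB ε q (z l) ≤ rhs RA RB ε y q
  start : z 0 = X0 D a b
  circ : ∀ i : Fin N, RCirc (row RA RB ε) (z (i + 1) - z i)
  hit : ∀ i : Fin N, 0 < row RA RB ε (Sum.inr (h i)) (z (i + 1) - z i)
  stay : ∀ i : Fin N, ∀ l, (i : ℕ) < l → l ≤ N →
    row RA RB ε (Sum.inr (h i)) (z l) = row RA RB ε (Sum.inr (h i)) y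
  inj : Function.Injective h

theorem row_lim (RA : Fin D ⊕ Fin a → Fin D → ℝ) (RB : Fin D ⊕ Fin b → Fin D → ℝ)
    (q : KA D a b ⊕ KB D a b) {l : Filter ℕ} {e : ℕ → ℝ} {e0 : ℝ} {f : ℕ → VS D a b} {p : VS D a b}
    (he : Tendsto e l (𝓝 e0)) (hf : Tendsto f l (𝓝 p)) :
    Tendsto (fun n => row RA RB (e n) q (f n)) l (𝓝 (row RA RB e0 q p)) := by
  have h1 : Tendsto (fun p : ℝ × VS D a b => row RA RB p.1 q p.2) (𝓝 (e0, p))
      (𝓝 (row RA RB e0 q p)) := (row_cont RA RB q).tendsto (e0, p)
  have h2 : Tendsto (fun n => (e n, f n)) l (𝓝 (e0, p)) := he.prodMk_nhds hf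
  exact h1.comp h2

theorem finrank_VS : finrank ℝ (VS D a b) = D + a + b + 2 := by
  rw [finrank_prod, finrank_prod, finrank_fin_fun, finrank_fin_fun, finrank_fin_fun]
  omega

/-- one polytope: either a violation or a short walk -/
theorem one_step (hB : Base RA RB Y) {ε : ℝ} (hε : ε ≠ 0) (hε0 : 0 ≤ ε) (hε1 : ε ≤ 1) (y : VS D a b)
    (hgen : ∃ Bad : Set (Submodule ℝ (VS D a b)), (∀ U ∈ Bad, y - X0 D a b ∉ U) ∧
      ∀ y : VS D a b, (∀ U ∈ Bad, y - X0 D a b ∉ U) → ∀ k ≤ finrank ℝ (VS D a b), ∀ z : ℕ → VS D a b,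
        RWalk (row RA RB ε) (rhs RA RB ε y) k z →
        z 0 = X0 D a b → z k = y → k = finrank ℝ (VS D a b) ∧ ∃ h : Fin k → KB D a b,
          (∀ i : Fin k, 0 < row RA RB ε (Sum.inr (h i)) (z (i + 1) - z i)) ∧
          (∀ i : Fin k, ∀ l, (i : ℕ) < l → l ≤ k → row RA RB ε (Sum.inr (h i)) (z l) =
            row RA RB ε (Sum.inr (h i)) y) ∧
          Function.Injective h)
    (hA : ∀ q, row RA RB ε (Sum.inl q) y < row RA RB ε (Sum.inl q) (X0 D a b))
    (hBy : ∀ q, row RA RB ε (Sum.inr q) (X0 D a b) < row RA RB ε (Sum.inr q) y)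
    (hle : ∀ q, rhs RA RB ε y q ≤ 2)
    (hno : ¬ ∃ (A : Matrix (Fin (D + a + b + 2)) (Fin (D + a + b + 2 + (D + a + b + 2))) ℝ)
      (b' : Fin (D + a + b + 2) → ℝ) (x' y' : Fin (D + a + b + 2 + (D + a + b + 2)) → ℝ),
      Violates A b' x' y') :
    ∃ z h, Good RA RB ε y (D + a + b + 2) z h := by
  obtain ⟨Bad, hBad, hgen⟩ := hgen
  obtain ⟨R, hR⟩ := unif_bound (a := a) (b := b) hB
  by_contra hcon
  apply hno
  refine std' finrank_VS ?_ (row RA RB ε) (rhs RA RB ε y) (X0 D a b) y
    ((1 / 2 : ℝ) • (X0 D a b + y)) ?_ ?_ ?_ ?_ ?_ ?_ ?_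
  · simp only [Fintype.card_sum, Fintype.card_fin, Fintype.card_unit]
    omega
  · refine (Metric.isBounded_closedBall (x := (0 : VS D a b)) (r := R)).subset ?_
    intro z hz
    rw [mem_closedBall_zero_iff]
    exact hR ε hε0 hε1 z fun q => (hz q).trans (hle q)
  · rintro (q | q)
    · exact le_rfl
    · exact (hBy q).le
  · rintro (q | q)
    · exact (hA q).le
    · exact le_rfl
  · rintro (q | q)
    · have := hA q
      rw [map_smul, map_add, smul_eq_mul]
      change _ < row RA RB ε (Sum.inl q) (X0 D a b)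
      linarith
    · have := hBy q
      rw [map_smul, map_add, smul_eq_mul]
      change _ < row RA RB ε (Sum.inr q) y
      linarith
  · intro v hv
    exact injA hB hε v fun q => hv (Sum.inl q) rfl
  · intro v hv
    exact injB hB hε v fun q => hv (Sum.inr q) rfl
  · intro k z hz h0 hk
    by_contra hlt
    push Not at hlt
    obtain ⟨hkN, h, h1, h2, h3⟩ := hgen y hBad k (by rw [finrank_VS]; exact hlt) z hz h0 hk
    rw [finrank_VS] at hkN
    subst hkN
    exact hcon ⟨z, h, fun l hl q => hz.1 l hl q, h0, fun i => (hz.2 i i.2).1, h1, h2, h3⟩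

theorem lift (hB : Base RA RB Y) :
    ∃ (A : Matrix (Fin (D + a + b + 2)) (Fin (D + a + b + 2 + (D + a + b + 2))) ℝ)
      (b' : Fin (D + a + b + 2) → ℝ) (x' y' : Fin (D + a + b + 2 + (D + a + b + 2)) → ℝ),
      Violates A b' x' y' := by
  classical
  by_contra hno
  set N := D + a + b + 2 with hN
  set ε : ℕ → ℝ := fun n => 1 / ((n : ℝ) + 1) with hε
  have hεpos : ∀ n, 0 < ε n := fun n => by rw [hε]; positivity
  have hε1 : ∀ n, ε n ≤ 1 := by
    intro n
    rw [hε]
    simp only
    rw [div_le_one (by positivity)]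
    have : (0 : ℝ) ≤ n := Nat.cast_nonneg n
    linarith
  have hε0 : Tendsto ε atTop (𝓝 0) := tendsto_one_div_add_atTop_nhds_zero_nat
  -- generic targets
  have hyex : ∀ n, ∃ y : VS D a b, ‖y - Y0 a b Y‖ < ε n ∧
      ∃ Bad : Set (Submodule ℝ (VS D a b)), (∀ U ∈ Bad, y - X0 D a b ∉ U) ∧
      ∀ y : VS D a b, (∀ U ∈ Bad, y - X0 D a b ∉ U) → ∀ k ≤ finrank ℝ (VS D a b), ∀ z : ℕ → VS D a b,
        RWalk (row RA RB (ε n)) (rhs RA RB (ε n) y) k z →
        z 0 = X0 D a b → z k = y → k = finrank ℝ (VS D a b) ∧ ∃ h : Fin k → KB D a b,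
          (∀ i : Fin k, 0 < row RA RB (ε n) (Sum.inr (h i)) (z (i + 1) - z i)) ∧
          (∀ i : Fin k, ∀ l, (i : ℕ) < l → l ≤ k → row RA RB (ε n) (Sum.inr (h i)) (z l) =
            row RA RB (ε n) (Sum.inr (h i)) y) ∧
          Function.Injective h := by
    intro n
    obtain ⟨Bad, hfin, hne, hgen⟩ := gen (row RA RB (ε n)) (X0 D a b)
    obtain ⟨w, hw1, hw2⟩ := avoid Bad hfin hne (Y0 a b Y - X0 D a b) (ε n) (hεpos n)
    refine ⟨X0 D a b + w, ?_, Bad, ?_, hgen⟩
    · rw [show X0 D a b + w - Y0 a b Y = w - (Y0 a b Y - X0 D a b) by abel]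
      exact hw1
    · intro U hU
      rw [add_sub_cancel_left]
      exact hw2 U hU
  choose y hyd hygen using hyex
  have hylim : Tendsto y atTop (𝓝 (Y0 a b Y)) := by
    rw [tendsto_iff_norm_sub_tendsto_zero]
    exact squeeze_zero (fun n => norm_nonneg _) (fun n => (hyd n).le) hε0
  have hrowy : ∀ q, Tendsto (fun n => row RA RB (ε n) q (y n)) atTop (𝓝 (row RA RB 0 q (Y0 a b Y))) := by
    intro q
    exact row_lim RA RB q hε0 hylim
  have hrowX : ∀ q, Tendsto (fun n => row RA RB (ε n) q (X0 D a b)) atTop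
      (𝓝 (row RA RB 0 q (X0 D a b))) := by
    intro q
    exact row_lim RA RB q hε0 (f := fun _ => X0 D a b) (p := X0 D a b) tendsto_const_nhds
  have ha1 : (0 : ℝ) < (a : ℝ) + 1 := by positivity
  have hb1 : (0 : ℝ) < (b : ℝ) + 1 := by positivity
  have hsumX : ∑ _l : Fin (a + 1), 1 / ((a : ℝ) + 1) = 1 := by
    rw [Finset.sum_const, Finset.card_univ, Fintype.card_fin, nsmul_eq_mul]
    push_cast
    field_simp
  have hsumY : ∑ _l : Fin (b + 1), 1 / ((b : ℝ) + 1) = 1 := by
    rw [Finset.sum_const, Finset.card_univ, Fintype.card_fin, nsmul_eq_mul]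
    push_cast
    field_simp
  -- strict inequalities in the limit
  have hlimA : ∀ q, row RA RB 0 (Sum.inl q) (Y0 a b Y) < row RA RB 0 (Sum.inl q) (X0 D a b) := by
    rintro (i | u | l)
    · rw [row_xA, row_xA]
      simp only [Y0, X0, dotProduct_zero, zero_mul, neg_zero, sub_zero]
      have := hB.aY i
      linarith
    · rw [row_tA, row_tA]
      simp only [Y0, X0]
      rw [hsumX]
      simp
    · rw [row_uA, row_uA]
      simp only [Y0, X0, Pi.zero_apply, neg_zero]
      rw [neg_lt_zero]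
      positivity
  have hlimB : ∀ q, row RA RB 0 (Sum.inr q) (X0 D a b) < row RA RB 0 (Sum.inr q) (Y0 a b Y) := by
    rintro (j | l | u)
    · rw [row_xB, row_xB]
      simp only [Y0, X0, dotProduct_zero, zero_mul, add_zero]
      rw [hB.bY j]
      exact one_pos
    · rw [row_tB, row_tB]
      simp only [Y0, X0, Pi.zero_apply, neg_zero]
      rw [neg_lt_zero]
      positivity
    · rw [row_uB, row_uB]
      simp only [Y0, X0]
      rw [hsumY]
      simp
  have hlim2A : ∀ q, row RA RB 0 (Sum.inl q) (X0 D a b) < 2 := by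
    rintro (i | u | l)
    · rw [row_xA]
      simp [X0]
    · rw [row_tA]
      simp only [X0]
      rw [hsumX]
      norm_num
    · rw [row_uA]
      simp [X0]
  have hlim2B : ∀ q, row RA RB 0 (Sum.inr q) (Y0 a b Y) < 2 := by
    rintro (j | l | u)
    · rw [row_xB]
      simp only [Y0, zero_mul, add_zero]
      rw [hB.bY j]
      norm_num
    · rw [row_tB]
      simp [Y0]
    · rw [row_uB]
      simp only [Y0]
      rw [hsumY]
      norm_num
  -- good walks for all large `n`
  have hgood : ∀ᶠ n in atTop, ∃ p : (ℕ → VS D a b) × (Fin N → KB D a b),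
      Good RA RB (ε n) (y n) N p.1 p.2 := by
    have e1 : ∀ᶠ n in atTop, ∀ q, row RA RB (ε n) (Sum.inl q) (y n) <
        row RA RB (ε n) (Sum.inl q) (X0 D a b) := by
      rw [eventually_all]
      intro q
      exact (hrowy _).eventually_lt (hrowX _) (hlimA q)
    have e2 : ∀ᶠ n in atTop, ∀ q, row RA RB (ε n) (Sum.inr q) (X0 D a b) <
        row RA RB (ε n) (Sum.inr q) (y n) := by
      rw [eventually_all]
      intro q
      exact (hrowX _).eventually_lt (hrowy _) (hlimB q)
    have e3 : ∀ᶠ n in atTop, ∀ q, row RA RB (ε n) (Sum.inl q) (X0 D a b) < 2 := by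
      rw [eventually_all]
      intro q
      exact (hrowX _).eventually (gt_mem_nhds (hlim2A q))
    have e4 : ∀ᶠ n in atTop, ∀ q, row RA RB (ε n) (Sum.inr q) (y n) < 2 := by
      rw [eventually_all]
      intro q
      exact (hrowy _).eventually (gt_mem_nhds (hlim2B q))
    filter_upwards [e1, e2, e3, e4] with n h1 h2 h3 h4
    obtain ⟨z, h, hz⟩ := one_step hB (hεpos n).ne' (hεpos n).le (hε1 n) (y n) (hygen n) h1 h2
      (by rintro (q | q)
          · exact (h3 q).le
          · exact (h4 q).le) hno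
    exact ⟨(z, h), hz⟩
  obtain ⟨p, hp⟩ := hgood.choice
  set U : Ultrafilter ℕ := Filter.hyperfilter ℕ with hU
  have hUle : (U : Filter ℕ) ≤ atTop := Nat.hyperfilter_le_atTop
  have hpU : ∀ᶠ n in (U : Filter ℕ), Good RA RB (ε n) (y n) N (p n).1 (p n).2 := hUle hp
  set z : ℕ → ℕ → VS D a b := fun n => (p n).1 with hz
  obtain ⟨H, hH⟩ := ultra_const U (fun n => (p n).2)
  obtain ⟨Z, hZ⟩ := ultra_const U (fun n => fun i : Fin N =>
    {q : KA D a b ⊕ KB D a b | row RA RB (ε n) q (z n (i + 1) - z n i) = 0})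
  have hgd : ∀ᶠ n in (U : Filter ℕ), Good RA RB (ε n) (y n) N (z n) H := by
    filter_upwards [hpU, hH] with n h1 h2
    rw [← h2]
    exact h1
  have hεU : Tendsto ε U (𝓝 0) := hε0.mono_left hUle
  have hrowyU : ∀ q, Tendsto (fun n => row RA RB (ε n) q (y n)) U (𝓝 (row RA RB 0 q (Y0 a b Y))) :=
    fun q => (hrowy q).mono_left hUle
  have hrowXU : ∀ q, Tendsto (fun n => row RA RB (ε n) q (X0 D a b)) U
      (𝓝 (row RA RB 0 q (X0 D a b))) := fun q => (hrowX q).mono_left hUle
  have hrhs : ∀ q, Tendsto (fun n => rhs RA RB (ε n) (y n) q) U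
      (𝓝 (Sum.elim (fun i => row RA RB 0 (Sum.inl i) (X0 D a b))
        (fun j => row RA RB 0 (Sum.inr j) (Y0 a b Y)) q)) := by
    rintro (q | q)
    · exact hrowXU _
    · exact hrowyU _
  -- limits of the points
  obtain ⟨R, hR⟩ := unif_bound (a := a) (b := b) hB
  have hlimex : ∀ l : ℕ, ∃ q : VS D a b, l ≤ N → Tendsto (fun n => z n l) U (𝓝 q) := by
    intro l
    by_cases hl : l ≤ N
    · obtain ⟨q, hq⟩ := ultra_lim U (fun n => z n l) R (by
        have e3 : ∀ᶠ n in (U : Filter ℕ), ∀ q, row RA RB (ε n) (Sum.inl q) (X0 D a b) < 2 := by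
          rw [eventually_all]
          intro q
          exact (hrowXU _).eventually (gt_mem_nhds (hlim2A q))
        have e4 : ∀ᶠ n in (U : Filter ℕ), ∀ q, row RA RB (ε n) (Sum.inr q) (y n) < 2 := by
          rw [eventually_all]
          intro q
          exact (hrowyU _).eventually (gt_mem_nhds (hlim2B q))
        filter_upwards [hgd, e3, e4] with n h1 h3 h4
        apply hR (ε n) (hεpos n).le (hε1 n)
        intro q
        refine (h1.mem l hl q).trans ?_
        rcases q with q | q
        · exact (h3 q).le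
        · exact (h4 q).le)
      exact ⟨q, fun _ => hq⟩
    · exact ⟨0, fun h => absurd h hl⟩
  choose w hw using hlimex
  have hroww : ∀ l ≤ N, ∀ q, Tendsto (fun n => row RA RB (ε n) q (z n l)) U
      (𝓝 (row RA RB 0 q (w l))) := by
    intro l hl q
    exact row_lim RA RB q hεU (hw l hl)
  have hwmem : ∀ l ≤ N, ∀ q, row RA RB 0 q (w l) ≤ Sum.elim (fun i => row RA RB 0 (Sum.inl i) (X0 D a b))
        (fun j => row RA RB 0 (Sum.inr j) (Y0 a b Y)) q := by
    intro l hl q
    refine le_of_tendsto_of_tendsto (hroww l hl q) (hrhs q) ?_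
    filter_upwards [hgd] with n hn
    exact hn.mem l hl q
  have hxP : ∀ l ≤ N, (w l).1 ∈ BPoly RA RB := by
    intro l hl
    constructor
    · intro i
      have h1 := hwmem l hl (Sum.inl (Sum.inl i))
      simp only [Sum.elim_inl] at h1
      rw [row_xA, row_xA] at h1
      simp only [X0, dotProduct_zero, zero_mul, neg_zero, sub_zero] at h1
      linarith
    · intro j
      have h1 := hwmem l hl (Sum.inr (Sum.inl j))
      simp only [Sum.elim_inr] at h1
      rw [row_xB, row_xB] at h1
      simp only [Y0, zero_mul, add_zero] at h1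
      rwa [hB.bY j] at h1
  have hw0 : (w 0).1 = 0 := by
    have h1 : Tendsto (fun n => z n 0) U (𝓝 (X0 D a b)) := by
      apply tendsto_const_nhds.congr'
      filter_upwards [hgd] with n hn
      exact hn.start.symm
    have h2 := tendsto_nhds_unique (hw 0 (Nat.zero_le _)) h1
    rw [h2]
    rfl
  have hwall : ∀ i : Fin N, ∀ j, H i = Sum.inl j → ∀ l, (i : ℕ) < l → l ≤ N → RB j ⬝ᵥ (w l).1 = 1 := by
    intro i j hij l hil hl
    have h1 : row RA RB 0 (Sum.inr (H i)) (w l) = row RA RB 0 (Sum.inr (H i)) (Y0 a b Y) := by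
      refine tendsto_nhds_unique (hroww l hl _) ((hrowyU _).congr' ?_)
      filter_upwards [hgd] with n hn
      exact (hn.stay i l hil hl).symm
    rw [hij, row_xB, row_xB] at h1
    simp only [Y0, zero_mul, add_zero] at h1
    rwa [hB.bY j] at h1
  -- the differences
  have hdl : ∀ i : Fin N, Tendsto (fun n => z n (i + 1) - z n i) U (𝓝 (w (i + 1) - w i)) := by
    intro i
    exact (hw _ (by have := i.2; omega)).sub (hw _ (by have := i.2; omega))
  have hdx : ∀ i : Fin N, Tendsto (fun n => (z n (i + 1) - z n i).1) U (𝓝 ((w (i + 1)).1 - (w i).1)) :=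
    fun i => (continuous_fst.tendsto _).comp (hdl i)
  have hrowd : ∀ i : Fin N, ∀ q, Tendsto (fun n => row RA RB (ε n) q (z n (i + 1) - z n i)) U
      (𝓝 (row RA RB 0 q (w (i + 1) - w i))) := by
    intro i q
    exact row_lim RA RB q hεU (hdl i)
  -- case Delta
  have hcaseD : ∀ i : Fin N, (∀ᶠ n in (U : Filter ℕ), (z n (i + 1) - z n i).2 ≠ 0) →
      (w (i + 1)).1 = (w i).1 := by
    intro i hne
    obtain ⟨n, hn1, hn2, hn3⟩ := (hgd.and (hZ.and hne)).exists
    set g : Fin D → ℝ := (w (i + 1)).1 - (w i).1 with hg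
    have hgA : ∀ i', (Sum.inl (Sum.inl i') : KA D a b ⊕ KB D a b) ∈ Z i → RA i' ⬝ᵥ g = 0 := by
      intro i' hi'Z
      have h1 : row RA RB 0 (Sum.inl (Sum.inl i')) (w (i + 1) - w i) = 0 := by
        refine tendsto_nhds_unique (hrowd i _) (tendsto_const_nhds.congr' ?_)
        filter_upwards [hZ] with n hn
        rw [← hn] at hi'Z
        exact hi'Z.symm
      rw [row_xA] at h1
      simp only [zero_mul, sub_zero, neg_eq_zero, Prod.fst_sub] at h1
      exact h1
    have hgB : ∀ j, (Sum.inr (Sum.inl j) : KA D a b ⊕ KB D a b) ∈ Z i → RB j ⬝ᵥ g = 0 := by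
      intro j hjZ
      have h1 : row RA RB 0 (Sum.inr (Sum.inl j)) (w (i + 1) - w i) = 0 := by
        refine tendsto_nhds_unique (hrowd i _) (tendsto_const_nhds.congr' ?_)
        filter_upwards [hZ] with n hn
        rw [← hn] at hjZ
        exact hjZ.symm
      rw [row_xB] at h1
      simp only [zero_mul, add_zero, Prod.fst_sub] at h1
      exact h1
    obtain ⟨t, ht⟩ := (hn1.circ i).2 (g, 0, 0) (by
      intro q hq
      have hqZ : q ∈ Z i := by
        rw [← hn2]
        exact hq
      rcases q with (i' | u | l) | (j | l | u)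
      · rw [row_xA, hgA i' hqZ]
        simp
      · rw [row_tA]; simp
      · rw [row_uA]; simp
      · rw [row_xB, hgB j hqZ]
        simp
      · rw [row_tB]; simp
      · rw [row_uB]; simp)
    have h2 : (0 : (Fin (a + 1) → ℝ) × (Fin (b + 1) → ℝ)) = t • (z n (i + 1) - z n i).2 :=
      congrArg Prod.snd ht
    have h3 : t = 0 := by
      rcases smul_eq_zero.1 h2.symm with h | h
      · exact h
      · exact absurd h hn3
    rw [h3, zero_smul] at ht
    have hg0 : g = 0 := congrArg Prod.fst ht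
    exact sub_eq_zero.1 hg0
  -- case P
  have hcaseP : ∀ i : Fin N, (∀ᶠ n in (U : Filter ℕ), (z n (i + 1) - z n i).2 = 0) →
      ∃ g, BCirc RA RB g ∧ ∃ t : ℝ, (w (i + 1)).1 - (w i).1 = t • g := by
    intro i hne
    obtain ⟨n1, hn1, hn2, hn3⟩ := (hgd.and (hZ.and hne)).exists
    set g := (z n1 (i + 1) - z n1 i).1 with hg
    have hsplit : ∀ n, (z n (i + 1) - z n i).2 = 0 →
        z n (i + 1) - z n i = ((z n (i + 1) - z n i).1, 0, 0) := by
      intro n hn
      exact Prod.ext rfl hn
    have hxA : ∀ n, (z n (i + 1) - z n i).2 = 0 → ∀ i', row RA RB (ε n) (Sum.inl (Sum.inl i'))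
        (z n (i + 1) - z n i) = -(RA i' ⬝ᵥ (z n (i + 1) - z n i).1) := by
      intro n hn i'
      rw [row_xA, hn]
      simp
    have hxB : ∀ n, (z n (i + 1) - z n i).2 = 0 → ∀ j, row RA RB (ε n) (Sum.inr (Sum.inl j))
        (z n (i + 1) - z n i) = RB j ⬝ᵥ (z n (i + 1) - z n i).1 := by
      intro n hn i'
      rw [row_xB, hn]
      simp
    have hgc : BCirc RA RB g := by
      constructor
      · intro h0
        apply (hn1.circ i).1
        rw [hsplit n1 hn3]
        exact Prod.ext h0 rfl
      · intro h hA hB'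
        obtain ⟨t, ht⟩ := (hn1.circ i).2 (h, 0, 0) (by
          intro q hq
          rcases q with (i' | u | l) | (j | l | u)
          · rw [hxA n1 hn3, neg_eq_zero] at hq
            rw [row_xA, hA i' hq]
            simp
          · rw [row_tA]; simp
          · rw [row_uA]; simp
          · rw [hxB n1 hn3] at hq
            rw [row_xB, hB' j hq]
            simp
          · rw [row_tB]; simp
          · rw [row_uB]; simp)
        exact ⟨t, congrArg Prod.fst ht⟩
    refine ⟨g, hgc, ?_⟩
    have hmem : (w (i + 1)).1 - (w i).1 ∈ (Submodule.span ℝ {g} : Set (Fin D → ℝ)) := by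
      have hcl : IsClosed ((Submodule.span ℝ {g} : Submodule ℝ (Fin D → ℝ)) : Set (Fin D → ℝ)) :=
        Submodule.closed_of_finiteDimensional _
      refine hcl.mem_of_tendsto (hdx i) ?_
      filter_upwards [hZ, hne] with n h1 h2
      obtain ⟨t, ht⟩ := hgc.2 (z n (i + 1) - z n i).1 (by
        intro i' hi'
        have h3 : (Sum.inl (Sum.inl i') : KA D a b ⊕ KB D a b) ∈ Z i := by
          rw [← hn2]
          change row RA RB (ε n1) _ _ = 0
          rw [hxA n1 hn3, neg_eq_zero]
          exact hi'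
        rw [← h1] at h3
        have h4 : row RA RB (ε n) (Sum.inl (Sum.inl i')) (z n (i + 1) - z n i) = 0 := h3
        rw [hxA n h2, neg_eq_zero] at h4
        exact h4) (by
        intro j hj
        have h3 : (Sum.inr (Sum.inl j) : KA D a b ⊕ KB D a b) ∈ Z i := by
          rw [← hn2]
          change row RA RB (ε n1) _ _ = 0
          rw [hxB n1 hn3]
          exact hj
        rw [← h1] at h3
        have h4 : row RA RB (ε n) (Sum.inr (Sum.inl j)) (z n (i + 1) - z n i) = 0 := h3
        rw [hxB n h2] at h4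
        exact h4)
      exact Submodule.mem_span_singleton.2 ⟨t, ht.symm⟩
    obtain ⟨t, ht⟩ := Submodule.mem_span_singleton.1 hmem
    exact ⟨t, ht.symm⟩
  have hstep : ∀ i : Fin N, (w (i + 1)).1 = (w i).1 ∨
      ∃ g, BCirc RA RB g ∧ ∃ t : ℝ, (w (i + 1)).1 - (w i).1 = t • g := by
    intro i
    rcases U.em (fun n => (z n (i + 1) - z n i).2 = 0) with h | h
    · exact Or.inr (hcaseP i h)
    · exact Or.inl (hcaseD i h)
  have hstepr : ∀ i : Fin N, ∀ q, H i = Sum.inr q → (w (i + 1)).1 = (w i).1 := by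
    intro i q hq
    apply hcaseD i
    filter_upwards [hgd] with n hn
    intro h0
    have h1 := hn.hit i
    rw [hq] at h1
    rcases q with l | u
    · rw [row_tB, h0] at h1
      simp at h1
    · rw [row_uB, h0] at h1
      simp at h1
  -- injectivity
  have hHinj : Function.Injective H := by
    obtain ⟨n, hn⟩ := hgd.exists
    exact hn.inj
  -- induction
  set S : ℕ → Finset (Fin D ⊕ Fin b) := fun l => Finset.univ.filter (fun j =>
    ∃ i : Fin N, (i : ℕ) < l ∧ H i = Sum.inl j) with hS
  have hreach : ∀ l ≤ N, Reach RA RB (S l) (w l).1 := by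
    intro l
    induction l with
    | zero =>
      intro _
      have h1 : S 0 = ∅ := by
        rw [hS]
        simp
      rw [h1, hw0]
      exact Reach.zero
    | succ l ih =>
      intro hl
      have ih' := ih (by omega)
      set i : Fin N := ⟨l, by omega⟩ with hi
      rcases hHi : H i with j | q
      · have hSl : S (l + 1) = insert j (S l) := by
          ext j'
          rw [hS]
          simp only [Finset.mem_filter, Finset.mem_univ, true_and, Finset.mem_insert]
          constructor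
          · rintro ⟨i', hi', h1⟩
            rcases Nat.lt_succ_iff_lt_or_eq.1 hi' with h2 | h2
            · exact Or.inr ⟨i', h2, h1⟩
            · left
              have : i' = i := Fin.ext h2
              rw [this, hHi] at h1
              exact (Sum.inl_injective h1).symm
          · rintro (rfl | ⟨i', hi', h1⟩)
            · exact ⟨i, Nat.lt_succ_self l, hHi⟩
            · exact ⟨i', by omega, h1⟩
        have hjS : j ∉ S l := by
          rw [hS]
          simp only [Finset.mem_filter, Finset.mem_univ, true_and, not_exists, not_and]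
          intro i' hi' h1
          have : i' = i := hHinj (by rw [h1, hHi])
          rw [this] at hi'
          exact lt_irrefl _ hi'
        rw [hSl]
        refine Reach.step j _ ih' hjS (hstep i) (hxP _ hl) ?_
        intro j' hj'
        rw [← hSl, hS] at hj'
        simp only [Finset.mem_filter, Finset.mem_univ, true_and] at hj'
        obtain ⟨i', hi', h1⟩ := hj'
        exact hwall i' j' h1 (l + 1) hi' hl
      · have hSl : S (l + 1) = S l := by
          ext j'
          rw [hS]
          simp only [Finset.mem_filter, Finset.mem_univ, true_and]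
          constructor
          · rintro ⟨i', hi', h1⟩
            rcases Nat.lt_succ_iff_lt_or_eq.1 hi' with h2 | h2
            · exact ⟨i', h2, h1⟩
            · exfalso
              have : i' = i := Fin.ext h2
              rw [this, hHi] at h1
              exact absurd h1 (by simp)
          · rintro ⟨i', hi', h1⟩
            exact ⟨i', by omega, h1⟩
        rw [hSl, hstepr i q hHi]
        exact ih'
  have hsurj : Function.Surjective H := by
    have hcard : Fintype.card (Fin N) = Fintype.card (KB D a b) := by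
      simp only [Fintype.card_sum, Fintype.card_fin, Fintype.card_unit]
      omega
    exact ((Fintype.bijective_iff_injective_and_card H).2 ⟨hHinj, hcard⟩).2
  have hxY : (w N).1 = Y := by
    rw [← sub_eq_zero]
    apply hB.basB
    intro j
    obtain ⟨i, hi⟩ := hsurj (Sum.inl (Sum.inl j))
    rw [dotProduct_sub, hB.bY, hwall i _ hi N i.2 le_rfl, sub_self]
  have hfin := hreach N le_rfl
  rw [hxY] at hfin
  exact hB.nw _ hfin

end Pool.Agent.CH74
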