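import Mathlib

/-!
# CH74/PolyDefs: the definitions used in the statement (circuit Hirsch conjecture, MP_c5fcd0_co)

The polyhedron `Poly A b = {x | A x = b, x ≥ 0}`, elementary vectors, circuit walks (every step maximal),
dimension, facets.
-/

namespace Pool.Agent.CH74

open Matrix

/-- The polyhedron `{x | A x = b, x ≥ 0}`. -/
def Poly {m n : ℕ} (A : Matrix (Fin m) (Fin n) ℝ) (b : Fin m → ℝ) : Set (Fin n → ℝ) :=
  {x | A *ᵥ x = b ∧ ∀ i, 0 ≤ x i}

/-- Elementary vectors of `A`: nonzero vectors of the kernel with minimal support. -/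
def Elementary {m n : ℕ} (A : Matrix (Fin m) (Fin n) ℝ) (g : Fin n → ℝ) : Prop :=
  g ≠ 0 ∧ A *ᵥ g = 0 ∧
    ∀ h : Fin n → ℝ, h ≠ 0 → A *ᵥ h = 0 → ¬ (Function.support h ⊂ Function.support g)

/-- `p 0, ..., p k` is a circuit walk of length `k` in `Poly A b`: every step is an elementary vector
and is maximal. -/
def IsCircuitWalk {m n : ℕ} (A : Matrix (Fin m) (Fin n) ℝ) (b : Fin m → ℝ) (k : ℕ)
    (p : ℕ → Fin n → ℝ) : Prop :=
  (∀ i ≤ k, p i ∈ Poly A b) ∧
    ∀ i < k, Elementary A (p (i + 1) - p i) ∧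
      ∀ ε : ℝ, 0 < ε → p i + (1 + ε) • (p (i + 1) - p i) ∉ Poly A b

/-- The dimension of a subset of `ℝ^n` (of its affine hull). -/
noncomputable def dim {n : ℕ} (P : Set (Fin n → ℝ)) : ℕ := Module.finrank ℝ (vectorSpan ℝ P)

/-- Facets: nonempty exposed faces of dimension `dim P - 1`. -/
def IsFacet {n : ℕ} (P F : Set (Fin n → ℝ)) : Prop :=
  F.Nonempty ∧ IsExposed ℝ P F ∧ dim F + 1 = dim P

/-- The number of facets. -/
noncomputable def numFacets {n : ℕ} (P : Set (Fin n → ℝ)) : ℕ := {F | IsFacet P F}.ncard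

end Pool.Agent.CH74
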