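import Pool.Agent.CH74.Defs

/-!
# CH74/Std: from row form to standard equality form
-/

namespace Pool.Agent.CH74

open Matrix Module

section Facets

variable {m n : ℕ} {A : Matrix (Fin m) (Fin n) ℝ} {b : Fin m → ℝ}

theorem poly_convex : Convex ℝ (Poly A b) := by
  intro x hx y hy s t hs ht hst
  refine ⟨?_, fun i => ?_⟩
  · rw [Matrix.mulVec_add, Matrix.mulVec_smul, Matrix.mulVec_smul, hx.1, hy.1, ← add_smul, hst, one_smul]
  · have h1 := hx.2 i
    have h2 := hy.2 i
    simp only [Pi.add_apply, Pi.smul_apply, smul_eq_mul]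
    positivity

theorem vectorSpan_poly_le : ∀ v ∈ vectorSpan ℝ (Poly A b), A *ᵥ v = 0 := by
  intro v hv
  have h : vectorSpan ℝ (Poly A b) ≤ LinearMap.ker (Matrix.mulVecLin A) := by
    rw [vectorSpan_def, Submodule.span_le]
    rintro _ ⟨x, hx, y, hy, rfl⟩
    simp only [vsub_eq_sub, SetLike.mem_coe, LinearMap.mem_ker, Matrix.mulVecLin_apply]
    rw [Matrix.mulVec_sub, hx.1, hy.1, sub_self]
  have := h hv
  simpa using this

/-- every facet is the set of zeros of a coordinate -/
theorem facet_eq (hpos : ∃ z ∈ Poly A b, ∀ i, 0 < z i) {F : Set (Fin n → ℝ)}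
    (hF : IsFacet (Poly A b) F) : ∃ i : Fin n, F = {x ∈ Poly A b | x i = 0} := by
  obtain ⟨hne, hexp, hdim⟩ := hF
  obtain ⟨l, hl⟩ := hexp hne
  have hFP : F ⊆ Poly A b := by
    rw [hl]
    exact fun x hx => hx.1
  have hFmax : ∀ x ∈ F, ∀ y ∈ Poly A b, l y ≤ l x := by
    intro x hx
    rw [hl] at hx
    exact hx.2
  obtain ⟨x0, hx0⟩ := hne
  have hmem : ∀ y ∈ Poly A b, l x0 ≤ l y → y ∈ F := by
    intro y hy h
    rw [hl]
    exact ⟨hy, fun w hw => (hFmax x0 hx0 w hw).trans h⟩
  have hFconst : ∀ x ∈ F, l x = l x0 := fun x hx =>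
    le_antisymm (hFmax x0 hx0 x (hFP hx)) (hFmax x hx x0 (hFP hx0))
  have hFconv : Convex ℝ F := by
    intro x hx y hy s t hs ht hst
    refine hmem _ (poly_convex (hFP hx) (hFP hy) hs ht hst) ?_
    rw [map_add, map_smul, map_smul, hFconst x hx, hFconst y hy, ← add_smul, hst, one_smul]
  -- some coordinate vanishes on `F`
  have h1 : ∃ i, ∀ x ∈ F, x i = 0 := by
    by_contra hcon
    push Not at hcon
    choose X hX hX0 using hcon
    have hXpos : ∀ i, 0 < X i i := fun i => lt_of_le_of_ne ((hFP (hX i)).2 i) (hX0 i).symm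
    have hn : 0 < n := by
      rcases Nat.eq_zero_or_pos n with h0 | h0
      · exfalso
        subst h0
        have e1 : dim (Poly A b) = 0 := by
          unfold dim
          exact finrank_zero_of_subsingleton
        omega
      · exact h0
    have hnR : (0 : ℝ) < n := by exact_mod_cast hn
    have hbar : ∃ xb ∈ F, ∀ i, 0 < xb i := by
      refine ⟨∑ i : Fin n, (1 / (n : ℝ)) • X i, ?_, ?_⟩
      · apply hFconv.sum_mem
        · intro i _; positivity
        · rw [Finset.sum_const, Finset.card_univ, Fintype.card_fin, nsmul_eq_mul]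
          field_simp
        · intro i _; exact hX i
      · intro i
        rw [Finset.sum_apply]
        apply Finset.sum_pos'
        · intro j _
          have := (hFP (hX j)).2 i
          simp only [Pi.smul_apply, smul_eq_mul]
          positivity
        · exact ⟨i, Finset.mem_univ _, by
            have := hXpos i
            simp only [Pi.smul_apply, smul_eq_mul]
            positivity⟩
    obtain ⟨xb, hxb, hxbpos⟩ := hbar
    have hall : ∀ y ∈ Poly A b, y ∈ F := by
      intro y hy
      have hev : ∀ᶠ δ in nhdsWithin (0 : ℝ) (Set.Ioi 0), ∀ i, 0 ≤ (xb + δ • (xb - y)) i := by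
        rw [Filter.eventually_all]
        intro i
        have hc : Filter.Tendsto (fun δ : ℝ => (xb + δ • (xb - y)) i) (nhdsWithin (0 : ℝ) (Set.Ioi 0))
            (nhds ((xb + (0 : ℝ) • (xb - y)) i)) := by
          apply Filter.Tendsto.mono_left _ nhdsWithin_le_nhds
          have : Continuous (fun δ : ℝ => (xb + δ • (xb - y)) i) := by fun_prop
          exact this.tendsto 0
        have : 0 < (xb + (0 : ℝ) • (xb - y)) i := by simpa using hxbpos i
        exact (hc.eventually (lt_mem_nhds this)).mono fun δ h => h.le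
      obtain ⟨δ, hδ, hδ0⟩ := (hev.and self_mem_nhdsWithin).exists
      have hδ0' : (0 : ℝ) < δ := hδ0
      have hin : xb + δ • (xb - y) ∈ Poly A b := by
        refine ⟨?_, hδ⟩
        rw [Matrix.mulVec_add, Matrix.mulVec_smul, Matrix.mulVec_sub, (hFP hxb).1, hy.1, sub_self,
          smul_zero, add_zero]
      have h2 := hFmax xb hxb _ hin
      rw [map_add, map_smul, map_sub, smul_eq_mul] at h2
      have h3 : l xb ≤ l y := by nlinarith
      exact hmem y hy (by rw [← hFconst xb hxb]; exact h3)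
    have hFe : F = Poly A b := Set.Subset.antisymm hFP hall
    rw [hFe] at hdim
    omega
  obtain ⟨i, hi⟩ := h1
  refine ⟨i, Set.Subset.antisymm (fun x hx => ⟨hFP hx, hi x hx⟩) ?_⟩
  intro x hx
  -- dimension count
  set Pi' : Set (Fin n → ℝ) := {x ∈ Poly A b | x i = 0} with hPi
  have hsub : F ⊆ Pi' := fun x hx => ⟨hFP hx, hi x hx⟩
  have hle1 : vectorSpan ℝ F ≤ vectorSpan ℝ Pi' := vectorSpan_mono ℝ hsub
  have hle2 : vectorSpan ℝ Pi' < vectorSpan ℝ (Poly A b) := by
    refine lt_of_le_of_ne (vectorSpan_mono ℝ fun x hx => hx.1) ?_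
    intro heq
    obtain ⟨z, hz, hzpos⟩ := hpos
    have h2 : z - x0 ∈ vectorSpan ℝ (Poly A b) := vsub_mem_vectorSpan ℝ hz (hFP hx0)
    rw [← heq] at h2
    have h3 : vectorSpan ℝ Pi' ≤ LinearMap.ker (LinearMap.proj (R := ℝ) (φ := fun _ : Fin n => ℝ) i) := by
      rw [vectorSpan_def, Submodule.span_le]
      rintro _ ⟨u, hu, w, hw, rfl⟩
      simp only [vsub_eq_sub, SetLike.mem_coe, LinearMap.mem_ker, LinearMap.proj_apply, Pi.sub_apply]
      rw [hu.2, hw.2, sub_self]
    have h4 := h3 h2
    simp only [LinearMap.mem_ker, LinearMap.proj_apply, Pi.sub_apply] at h4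
    rw [hi x0 hx0, sub_zero] at h4
    exact (hzpos i).ne' h4
  have hlt := Submodule.finrank_lt_finrank_of_lt hle2
  have hle3 := Submodule.finrank_mono hle1
  unfold dim at hdim
  have heq : vectorSpan ℝ F = vectorSpan ℝ Pi' :=
    Submodule.eq_of_le_of_finrank_le hle1 (by omega)
  have h5 : x - x0 ∈ vectorSpan ℝ Pi' := vsub_mem_vectorSpan ℝ hx (hsub hx0)
  rw [← heq] at h5
  have h6 : vectorSpan ℝ F ≤ LinearMap.ker (l : (Fin n → ℝ) →ₗ[ℝ] ℝ) := by
    rw [vectorSpan_def, Submodule.span_le]
    rintro _ ⟨u, hu, w, hw, rfl⟩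
    simp only [vsub_eq_sub, SetLike.mem_coe, LinearMap.mem_ker]
    change l (u - w) = 0
    rw [map_sub, hFconst u hu, hFconst w hw, sub_self]
  have h7 := h6 h5
  simp only [LinearMap.mem_ker] at h7
  change l (x - x0) = 0 at h7
  rw [map_sub] at h7
  exact hmem x hx.1 (by linarith)

theorem facets_subset (hpos : ∃ z ∈ Poly A b, ∀ i, 0 < z i) :
    {F | IsFacet (Poly A b) F} ⊆ Set.range (fun i : Fin n => {x ∈ Poly A b | x i = 0}) := by
  intro F hF
  obtain ⟨i, hi⟩ := facet_eq hpos hF
  exact ⟨i, hi.symm⟩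

theorem numFacets_le (hpos : ∃ z ∈ Poly A b, ∀ i, 0 < z i) : numFacets (Poly A b) ≤ n := by
  unfold numFacets
  have h1 := facets_subset hpos
  refine (Set.ncard_le_ncard h1 (Set.finite_range _)).trans ?_
  have := Finite.card_range_le (fun i : Fin n => {x ∈ Poly A b | x i = 0})
  rw [Nat.card_coe_set_eq] at this
  simpa using this

end Facets

section Std

variable {V : Type*} [NormedAddCommGroup V] [NormedSpace ℝ V] [FiniteDimensional ℝ V]

theorem std {m n N : ℕ} (hN : finrank ℝ V = N) (hn : n = m + N) (hmN : m ≤ N)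
    (r : Fin n → V →ₗ[ℝ] ℝ) (c : Fin n → ℝ)
    (X y z0 : V) (hbd : Bornology.IsBounded (RPoly r c)) (hX : X ∈ RPoly r c) (hy : y ∈ RPoly r c)
    (hz0 : ∀ i, r i z0 < c i)
    (hXv : ∀ v : V, (∀ i, r i X = c i → r i v = 0) → v = 0)
    (hyv : ∀ v : V, (∀ i, r i y = c i → r i v = 0) → v = 0)
    (hw : ∀ (k : ℕ) (z : ℕ → V), RWalk r c k z → z 0 = X → z k = y → N < k) :
    ∃ (A : Matrix (Fin m) (Fin n) ℝ) (b : Fin m → ℝ) (x' y' : Fin n → ℝ), Violates A b x' y' := by
  classical
  set S : V →ₗ[ℝ] (Fin n → ℝ) := LinearMap.pi r with hS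
  have hSa : ∀ z i, S z i = r i z := fun z i => rfl
  have hSinj : Function.Injective S := by
    rw [← LinearMap.ker_eq_bot, LinearMap.ker_eq_bot']
    intro v hv
    apply hXv
    intro i _
    have := congrFun hv i
    exact this
  have hL : finrank ℝ (LinearMap.range S) = N := by
    rw [LinearMap.finrank_range_of_inj hSinj, hN]
  have hQ : finrank ℝ ((Fin n → ℝ) ⧸ LinearMap.range S) = m := by
    have := Submodule.finrank_quotient_add_finrank (LinearMap.range S)
    rw [hL, finrank_fin_fun] at this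
    omega
  obtain ⟨e⟩ : Nonempty (((Fin n → ℝ) ⧸ LinearMap.range S) ≃ₗ[ℝ] (Fin m → ℝ)) :=
    ⟨LinearEquiv.ofFinrankEq _ _ (by rw [hQ, finrank_fin_fun])⟩
  set T : (Fin n → ℝ) →ₗ[ℝ] (Fin m → ℝ) := e.toLinearMap ∘ₗ (LinearMap.range S).mkQ with hT
  have hTker : ∀ x, T x = 0 ↔ ∃ z, S z = x := by
    intro x
    rw [hT, LinearMap.comp_apply, LinearEquiv.coe_coe, LinearEquiv.map_eq_zero_iff,
      Submodule.mkQ_apply, Submodule.Quotient.mk_eq_zero, LinearMap.mem_range]
  have hTsurj : Function.Surjective T := by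
    rw [hT]
    exact e.surjective.comp (Submodule.mkQ_surjective _)
  set A : Matrix (Fin m) (Fin n) ℝ := LinearMap.toMatrix' T with hA
  have hAT : ∀ x, A *ᵥ x = T x := by
    intro x
    rw [hA, LinearMap.toMatrix'_mulVec]
  set b : Fin m → ℝ := T c with hb
  set Φ : V → (Fin n → ℝ) := fun z => c - S z with hΦ
  have hΦa : ∀ z i, Φ z i = c i - r i z := fun z i => rfl
  have hΦinj : Function.Injective Φ := by
    intro z w h
    apply hSinj
    rw [hΦ] at h
    exact sub_right_injective h
  have hmemΦ : ∀ z, Φ z ∈ Poly A b ↔ z ∈ RPoly r c := by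
    intro z
    constructor
    · intro h i
      have := h.2 i
      rw [hΦa] at this
      linarith
    · intro h
      refine ⟨?_, fun i => ?_⟩
      · rw [hAT, hΦ, hb, map_sub, sub_eq_self, hTker]
        exact ⟨z, rfl⟩
      · have := h i
        rw [hΦa]
        linarith
  have hPoly : ∀ x, x ∈ Poly A b → ∃ z, Φ z = x := by
    intro x hx
    have h1 := hx.1
    rw [hAT, hb, ← sub_eq_zero, ← map_sub, hTker] at h1
    obtain ⟨z, hz⟩ := h1
    refine ⟨-z, ?_⟩
    rw [hΦ]
    simp only [map_neg, hz]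
    abel
  have hPolyE : Poly A b = Φ '' RPoly r c := by
    ext x
    constructor
    · intro hx
      obtain ⟨z, hz⟩ := hPoly x hx
      exact ⟨z, (hmemΦ z).1 (by rw [hz]; exact hx), hz⟩
    · rintro ⟨z, hz, rfl⟩
      exact (hmemΦ z).2 hz
  have hrank : A.rank = m := by
    rw [Matrix.rank]
    have : LinearMap.range (Matrix.mulVecLin A) = ⊤ := by
      rw [LinearMap.range_eq_top]
      intro w
      obtain ⟨x, hx⟩ := hTsurj w
      exact ⟨x, by rw [Matrix.mulVecLin_apply, hAT, hx]⟩
    rw [this, finrank_top, finrank_fin_fun]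
  have hbdd : Bornology.IsBounded (Poly A b) := by
    rw [hPolyE]
    have hΦL : ∃ K, LipschitzWith K Φ := by
      obtain ⟨K, hK⟩ : ∃ K, LipschitzWith K S :=
        ⟨_, (LinearMap.toContinuousLinearMap S).lipschitz⟩
      refine ⟨K, ?_⟩
      apply LipschitzWith.of_dist_le_mul
      intro z w
      have := hK.dist_le_mul z w
      rw [dist_eq_norm] at this ⊢
      have e1 : Φ z - Φ w = -(S z - S w) := by
        rw [hΦ]
        simp only
        abel
      rw [e1, norm_neg]
      exact this
    obtain ⟨K, hK⟩ := hΦL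
    exact hK.isBounded_image hbd
  -- extreme points
  have hext : ∀ z, z ∈ RPoly r c → (∀ v : V, (∀ i, r i z = c i → r i v = 0) → v = 0) →
      Φ z ∈ (Poly A b).extremePoints ℝ := by
    intro z hz hzv
    rw [mem_extremePoints]
    refine ⟨(hmemΦ z).2 hz, ?_⟩
    have key : ∀ x1 ∈ Poly A b, ∀ x2 ∈ Poly A b, Φ z ∈ openSegment ℝ x1 x2 → x1 = Φ z := by
      intro x1 h1 x2 h2 hseg
      obtain ⟨s, t, hs, ht, hst, hcomb⟩ := hseg
      obtain ⟨z1, hz1⟩ := hPoly x1 h1
      rw [← hz1]
      have : z1 - z = 0 := by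
        apply hzv
        intro i hi
        have h3 := congrFun hcomb i
        simp only [Pi.add_apply, Pi.smul_apply, smul_eq_mul] at h3
        rw [hΦa, hi, sub_self] at h3
        have h4 := h1.2 i
        have h5 := h2.2 i
        have h6 : x1 i = 0 := by
          by_contra h7
          have h8 : 0 < x1 i := lt_of_le_of_ne h4 (Ne.symm h7)
          have : 0 < s * x1 i := by positivity
          have : 0 ≤ t * x2 i := by positivity
          linarith
        have h9 := congrFun hz1 i
        rw [hΦa, h6] at h9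
        rw [map_sub, hi]
        linarith
      rw [sub_eq_zero.1 this]
    intro x1 h1 x2 h2 hseg
    exact ⟨key x1 h1 x2 h2 hseg, key x2 h2 x1 h1 (by rw [openSegment_symm]; exact hseg)⟩
  -- dimension
  have hdim : dim (Poly A b) = N := by
    unfold dim
    have : vectorSpan ℝ (Poly A b) = LinearMap.range S := by
      apply le_antisymm
      · intro v hv
        have h1 := vectorSpan_poly_le v hv
        rw [hAT, hTker] at h1
        obtain ⟨z, hz⟩ := h1
        exact ⟨z, hz⟩
      · rintro _ ⟨w, rfl⟩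
        have hev : ∀ᶠ δ in nhdsWithin (0 : ℝ) (Set.Ioi 0), ∀ i, r i (z0 - δ • w) ≤ c i := by
          rw [Filter.eventually_all]
          intro i
          have hc : Filter.Tendsto (fun δ : ℝ => r i z0 - δ * r i w) (nhdsWithin (0 : ℝ) (Set.Ioi 0))
              (nhds (r i z0 - 0 * r i w)) := by
            apply Filter.Tendsto.mono_left _ nhdsWithin_le_nhds
            have : Continuous (fun δ : ℝ => r i z0 - δ * r i w) := by fun_prop
            exact this.tendsto 0
          have h0 : r i z0 - 0 * r i w < c i := by simpa using hz0 i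
          filter_upwards [hc.eventually (gt_mem_nhds h0)] with δ h
          rw [map_sub, map_smul, smul_eq_mul]
          exact h.le
        obtain ⟨δ, hδ, hδ0⟩ := (hev.and self_mem_nhdsWithin).exists
        have hδ0' : (0 : ℝ) < δ := hδ0
        have hz0m : z0 ∈ RPoly r c := fun i => (hz0 i).le
        have h1 : Φ (z0 - δ • w) - Φ z0 ∈ vectorSpan ℝ (Poly A b) :=
          vsub_mem_vectorSpan ℝ ((hmemΦ _).2 hδ) ((hmemΦ _).2 hz0m)
        have h2 : Φ (z0 - δ • w) - Φ z0 = δ • S w := by
          rw [hΦ]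
          simp only [map_sub, map_smul]
          abel
        rw [h2] at h1
        have h3 := Submodule.smul_mem _ δ⁻¹ h1
        rwa [smul_smul, inv_mul_cancel₀ hδ0'.ne', one_smul] at h3
    rw [this, hL]
  have hpos : ∃ z ∈ Poly A b, ∀ i, 0 < z i := by
    refine ⟨Φ z0, (hmemΦ z0).2 fun i => (hz0 i).le, fun i => ?_⟩
    rw [hΦa]
    linarith [hz0 i]
  refine ⟨A, b, Φ X, Φ y, hrank, hbdd, (Set.finite_range _).subset (facets_subset hpos),
    hext X hX hXv, hext y hy hyv, ?_⟩
  intro k p hp hp0 hpk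
  have hfac : numFacets (Poly A b) ≤ n := numFacets_le hpos
  -- the walk in row form
  have hex : ∀ i, ∃ z, i ≤ k → Φ z = p i := by
    intro i
    by_cases hi : i ≤ k
    · obtain ⟨z, hz⟩ := hPoly (p i) (hp.1 i hi)
      exact ⟨z, fun _ => hz⟩
    · exact ⟨0, fun h => absurd h hi⟩
  choose z hz using hex
  have hwalk : RWalk r c k z := by
    refine ⟨fun i hi => (hmemΦ _).1 (by rw [hz i hi]; exact hp.1 i hi), fun i hi => ?_⟩
    obtain ⟨hel, hmax⟩ := hp.2 i hi
    have hd : p (i + 1) - p i = - S (z (i + 1) - z i) := by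
      rw [← hz i hi.le, ← hz (i + 1) hi, hΦ]
      simp only [map_sub]
      abel
    constructor
    · obtain ⟨hne, _, hmin⟩ := hel
      set w := z (i + 1) - z i with hwd
      have hw0 : w ≠ 0 := by
        intro h0
        apply hne
        rw [hd, h0, map_zero, neg_zero]
      refine ⟨hw0, fun h hh => ?_⟩
      have hSw : S w ≠ 0 := fun h0 => hw0 (hSinj (by rw [h0, map_zero]))
      obtain ⟨i0, hi0⟩ := Function.ne_iff.1 hSw
      have hi0' : r i0 w ≠ 0 := hi0
      refine ⟨r i0 h / r i0 w, ?_⟩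
      by_contra hcon
      set h' := h - (r i0 h / r i0 w) • w with hh'
      have h'0 : h' ≠ 0 := fun h0 => hcon (sub_eq_zero.1 h0)
      have hSh' : S h' ≠ 0 := fun h0 => h'0 (hSinj (by rw [h0, map_zero]))
      apply hmin (S h') hSh' (by rw [hAT, hTker]; exact ⟨h', rfl⟩)
      rw [hd, Function.support_neg]
      refine ⟨fun j hj => ?_, fun hsub => ?_⟩
      · rw [Function.mem_support] at hj ⊢
        intro h0
        apply hj
        rw [hSa] at h0 ⊢
        rw [hh', map_sub, map_smul, h0, hh j h0, smul_zero, sub_zero]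
      · have h3 : i0 ∈ Function.support (S w) := by
          rw [Function.mem_support]; exact hi0'
        have h4 := hsub h3
        rw [Function.mem_support, hSa] at h4
        apply h4
        rw [hh', map_sub, map_smul, smul_eq_mul, div_mul_cancel₀ _ hi0', sub_self]
    · intro ε hε hcon
      apply hmax ε hε
      have h5 : p i + (1 + ε) • (p (i + 1) - p i) = Φ (z i + (1 + ε) • (z (i + 1) - z i)) := by
        rw [hd, ← hz i hi.le, hΦ]
        simp only [map_add, map_smul, smul_neg]
        abel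
      rw [h5]
      exact (hmemΦ _).2 hcon
  have hz0' : z 0 = X := hΦinj (by rw [hz 0 (Nat.zero_le k), hp0])
  have hzk : z k = y := hΦinj (by rw [hz k le_rfl, hpk])
  have := hw k z hwalk hz0' hzk
  rw [hdim]
  omega

end Std

end Pool.Agent.CH74
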